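import Pool.Agent.H681R3.DS.Stmts

set_option autoImplicit false

namespace Pool.Agent.H681R3.DS
open Finset AddCircle
open Pool.Agent.Results.MP_eb9c50_an.SidonNearZero

theorem Bdd.congr {a b : ℕ → ℕ → ℂ} {C : ℝ} (h : ∀ i j, a i j = b i j) (ha : Bdd a C) :
    Bdd b C := by
  have : a = b := by funext i j; exact h i j
  rwa [← this]

theorem Schur.congr {a b : ℕ → ℕ → ℂ} (h : ∀ i j, a i j = b i j) (ha : Schur a) :
    Schur b := by
  have : a = b := by funext i j; exact h i j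
  rwa [← this]

theorem Schur.mul {φ ψ : ℕ → ℕ → ℂ} (h1 : Schur φ) (h2 : Schur ψ) :
    Schur (fun i j => φ i j * ψ i j) := by
  intro a C ha
  have := h1 _ C (h2 a C ha)
  exact this.congr (fun i j => by ring)

theorem Schur.one : Schur (fun _ _ => 1) := fun _ _ ha => ha.congr (fun i j => by ring)

theorem Schur.rank {r s : ℕ → ℂ} (hr : ∀ i, ‖r i‖ ≤ 1) (hs : ∀ j, ‖s j‖ ≤ 1) :
    Schur (fun i j => r i * s j) := by
  intro a C ha n z w hz hw
  have h := ha n (fun i => r i * z i) (fun j => s j * w j)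
    (fun i => by rw [norm_mul]; exact mul_le_one₀ (hr i) (norm_nonneg _) (hz i))
    (fun j => by rw [norm_mul]; exact mul_le_one₀ (hs j) (norm_nonneg _) (hw j))
  refine le_trans (le_of_eq ?_) h
  congr 1
  refine Finset.sum_congr rfl (fun i _ => Finset.sum_congr rfl (fun j _ => ?_))
  ring

theorem ex_norm (x : ℝ) : ‖ex x‖ = 1 := by
  unfold ex
  rw [show (2 * Real.pi * Complex.I * x : ℂ) = ((2 * Real.pi * x : ℝ) : ℂ) * Complex.I by
    push_cast; ring]
  exact Complex.norm_exp_ofReal_mul_I _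

theorem ex_add (x y : ℝ) : ex (x + y) = ex x * ex y := by
  unfold ex
  rw [← Complex.exp_add]
  congr 1
  push_cast
  ring

theorem ex_pow (x : ℝ) (n : ℕ) : ex x ^ n = ex (n * x) := by
  unfold ex
  rw [← Complex.exp_nat_mul]
  congr 1
  push_cast
  ring

theorem fou (k : ℤ) (x : ℝ) : (fourier k ((x : ℝ) : UnitAddCircle) : ℂ) = ex (k * x) := by
  rw [fourier_coe_apply]
  unfold ex
  congr 1
  push_cast
  ring

/-- product of block indicators -/
theorem blocks (hB : TaskBlock) {K : ℕ} (c : ℕ → ℕ → Fin K) (p : ℕ) :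
    Schur (fun i j => ∏ q ∈ range p, (if c q i = c q j then (1 : ℂ) else 0)) := by
  induction p with
  | zero => exact Schur.one.congr (fun i j => by simp)
  | succ p ih =>
    exact (ih.mul (hB K (c p))).congr (fun i j => by rw [Finset.prod_range_succ])

theorem prod_ind {K : ℕ} (c : ℕ → ℕ → Fin K) (p i j : ℕ) :
    (∏ q ∈ range p, (if c q i = c q j then (1 : ℂ) else 0)) =
      if ∀ q < p, c q i = c q j then 1 else 0 := by
  rw [Finset.prod_ite_zero]
  simp

section
variable {K : ℕ} (m : ℕ → ℤ) (c : ℕ → ℕ → Fin K) (α : Fin K → ℝ)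

noncomputable def uu (p : ℕ) (l : Fin K) (i : ℕ) : ℂ :=
  if p ≤ i ∧ c p i = l then -ex (-(40 ^ p * m i * α l)) else 1

noncomputable def vv (p : ℕ) (l : Fin K) (j : ℕ) : ℂ :=
  if p ≤ j ∧ c p j ≠ l then ex (40 ^ p * m j * α l) else 1

noncomputable def rr (p : ℕ) (l : Fin K) (i : ℕ) : ℂ := if p ≤ i ∧ c p i = l then 1 else 0
noncomputable def ss (p : ℕ) (l : Fin K) (j : ℕ) : ℂ := if p ≤ j ∧ c p j ≠ l then 1 else 0

noncomputable def ph (p : ℕ) (l : Fin K) (i j : ℕ) : ℂ :=
  (∏ q ∈ range p, (if c q i = c q j then (1 : ℂ) else 0)) *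
    ((rr c p l i * ss c p l j) * (1 / (1 + uu m c α p l i * vv m c α p l j)))

def PhaseOK : Prop := ∀ (l : Fin K) (p i : ℕ), p ≤ i →
    (c p i = l → ‖1 + ex (-(40 ^ p * m i * α l))‖ ≤ 1 / 4) ∧
    (c p i ≠ l → ‖1 - ex (40 ^ p * m i * α l)‖ ≤ 1 / 4)

theorem uu_norm (p : ℕ) (l : Fin K) (i : ℕ) : ‖uu m c α p l i‖ = 1 := by
  unfold uu; split_ifs
  · rw [norm_neg, ex_norm]
  · simp

theorem vv_norm (p : ℕ) (l : Fin K) (i : ℕ) : ‖vv m c α p l i‖ = 1 := by
  unfold vv; split_ifs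
  · rw [ex_norm]
  · simp

theorem uu_close (h : PhaseOK m c α) (p : ℕ) (l : Fin K) (i : ℕ) :
    ‖1 - uu m c α p l i‖ ≤ 1 / 4 := by
  unfold uu; split_ifs with h1
  · rw [sub_neg_eq_add]; exact (h l p i h1.1).1 h1.2
  · norm_num

theorem vv_close (h : PhaseOK m c α) (p : ℕ) (l : Fin K) (i : ℕ) :
    ‖1 - vv m c α p l i‖ ≤ 1 / 4 := by
  unfold vv; split_ifs with h1
  · exact (h l p i h1.1).2 h1.2
  · norm_num

theorem rr_norm (p : ℕ) (l : Fin K) (i : ℕ) : ‖rr c p l i‖ ≤ 1 := by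
  unfold rr; split_ifs <;> simp

theorem ss_norm (p : ℕ) (l : Fin K) (i : ℕ) : ‖ss c p l i‖ ≤ 1 := by
  unfold ss; split_ifs <;> simp

theorem ph_schur (hB : TaskBlock) (hI : TaskInv) (h : PhaseOK m c α) (p : ℕ) (l : Fin K) :
    Schur (ph m c α p l) := by
  have h1 := (blocks hB c p).mul ((Schur.rank (rr_norm c p l) (ss_norm c p l)).mul
    (hI (uu m c α p l) (vv m c α p l) (uu_norm m c α p l) (vv_norm m c α p l)
      (uu_close m c α h p l) (vv_close m c α h p l)))
  exact h1.congr (fun i j => rfl)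

theorem ph_bdd (hI : TaskInv) (h : PhaseOK m c α) (p : ℕ) (l : Fin K)
    (a : ℕ → ℕ → ℂ) (D : ℝ)
    (ha : Bdd (fun i j => if p ≤ i ∧ p ≤ j ∧ ∀ q < p, c q i = c q j then a i j else 0) D) :
    Bdd (fun i j => ph m c α p l i j * a i j) D := by
  have h1 := ((Schur.rank (rr_norm c p l) (ss_norm c p l)).mul
    (hI (uu m c α p l) (vv m c α p l) (uu_norm m c α p l) (vv_norm m c α p l)
      (uu_close m c α h p l) (vv_close m c α h p l))) _ D ha
  refine h1.congr (fun i j => ?_)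
  unfold ph
  rw [prod_ind]
  by_cases hi : p ≤ i ∧ c p i = l
  · by_cases hj : p ≤ j ∧ c p j ≠ l
    · by_cases hq : ∀ q < p, c q i = c q j
      · rw [if_pos ⟨hi.1, hj.1, hq⟩, if_pos hq]; ring
      · rw [if_neg (fun h' => hq h'.2.2), if_neg hq]; ring
    · have : ss c p l j = 0 := by unfold ss; rw [if_neg hj]
      simp [this]
  · have : rr c p l i = 0 := by unfold rr; rw [if_neg hi]
    simp [this]

/-- the key identity -/
theorem key_id (h : PhaseOK m c α) (p : ℕ) (l : Fin K) (i j : ℕ) :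
    (1 - ex (-(((m i - m j : ℤ) : ℝ) * α l)) ^ (40 ^ p)) * ph m c α p l i j =
      if p ≤ i ∧ p ≤ j ∧ (∀ q < p, c q i = c q j) ∧ c p i = l ∧ c p j ≠ l then 1 else 0 := by
  unfold ph
  rw [prod_ind]
  by_cases hi : p ≤ i ∧ c p i = l
  · by_cases hj : p ≤ j ∧ c p j ≠ l
    · by_cases hq : ∀ q < p, c q i = c q j
      · rw [if_pos hq, if_pos ⟨hi.1, hj.1, hq, hi.2, hj.2⟩]
        have e1 : rr c p l i = 1 := by unfold rr; rw [if_pos hi]
        have e2 : ss c p l j = 1 := by unfold ss; rw [if_pos hj]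
        have e3 : uu m c α p l i = -ex (-(40 ^ p * m i * α l)) := by unfold uu; rw [if_pos hi]
        have e4 : vv m c α p l j = ex (40 ^ p * m j * α l) := by unfold vv; rw [if_pos hj]
        have e5 : ex (-(((m i - m j : ℤ) : ℝ) * α l)) ^ (40 ^ p) =
            ex (-(40 ^ p * m i * α l)) * ex (40 ^ p * m j * α l) := by
          rw [ex_pow, ← ex_add]
          congr 1
          push_cast
          ring
        have e6 : 1 + uu m c α p l i * vv m c α p l j ≠ 0 := by
          intro h0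
          have h1 := uu_close m c α h p l i
          have h2 := vv_close m c α h p l j
          have h3 : ‖(2 : ℂ)‖ ≤ 1 / 4 + 1 / 4 := by
            have : (2 : ℂ) = (1 - uu m c α p l i) + uu m c α p l i * (1 - vv m c α p l j) := by
              linear_combination h0
            rw [this]
            refine (norm_add_le _ _).trans (add_le_add h1 ?_)
            rw [norm_mul, uu_norm, one_mul]
            exact h2
          rw [Complex.norm_two] at h3
          norm_num at h3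
        rw [e1, e2, e5]
        have e7 : 1 - ex (-(40 ^ p * m i * α l)) * ex (40 ^ p * m j * α l) =
            1 + uu m c α p l i * vv m c α p l j := by rw [e3, e4]; ring
        rw [e7]
        field_simp
      · rw [if_neg hq, if_neg (fun h' => hq h'.2.2.1)]; ring
    · have : ss c p l j = 0 := by unfold ss; rw [if_neg hj]
      have hn : ¬ (p ≤ i ∧ p ≤ j ∧ (∀ q < p, c q i = c q j) ∧ c p i = l ∧ c p j ≠ l) :=
        fun h' => hj ⟨h'.2.1, h'.2.2.2.2⟩
      rw [this, if_neg hn]; ring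
  · have : rr c p l i = 0 := by unfold rr; rw [if_neg hi]
    have hn : ¬ (p ≤ i ∧ p ≤ j ∧ (∀ q < p, c q i = c q j) ∧ c p i = l ∧ c p j ≠ l) :=
      fun h' => hi ⟨h'.1, h'.2.2.2.1⟩
    rw [this, if_neg hn]; ring

end

end Pool.Agent.H681R3.DS
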