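import Pool.Agent.H681R3.DS.Asm

set_option autoImplicit false

namespace Pool.Agent.H681R3.DS
open Finset AddCircle
open Pool.Agent.Results.MP_eb9c50_an.SidonNearZero

/-- sum of translates -/
noncomputable def hh (α : ℝ) (N : ℕ) (g : C(UnitAddCircle, ℂ)) : C(UnitAddCircle, ℂ) :=
  ∑ r ∈ range N, trL (((r * α : ℝ)) : UnitAddCircle) g

theorem hh_norm (α : ℝ) (N : ℕ) (g : C(UnitAddCircle, ℂ)) : ‖hh α N g‖ ≤ N * ‖g‖ := by
  unfold hh
  refine (norm_sum_le _ _).trans ?_
  refine (Finset.sum_le_sum (fun r _ => trL_norm _ g)).trans ?_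
  simp

theorem hh_fc (α : ℝ) (N : ℕ) (g : C(UnitAddCircle, ℂ)) (k : ℤ) :
    fcL k (hh α N g) = (∑ r ∈ range N, ex (-(k * α)) ^ r) * fcL k g := by
  unfold hh
  rw [map_sum, Finset.sum_mul]
  refine Finset.sum_congr rfl (fun r _ => ?_)
  rw [fcL_apply, fcL_apply, fc_trL, fou, ex_pow]
  congr 2
  push_cast
  ring

theorem exists_G (α : ℝ) (C : ℝ) (g : ℕ → C(UnitAddCircle, ℂ))
    (hg : ∀ p, ‖g p‖ ≤ (1 / 80) ^ p * C) :
    ∃ G : C(UnitAddCircle, ℂ), ∀ k : ℤ,
      HasSum (fun p : ℕ => (1 - ex (-(k * α)) ^ (40 ^ p)) * fcL k (g p))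
        (fcL k (G - trL ((α : ℝ) : UnitAddCircle) G)) ∧
      ((∀ p, fcL k (g p) = 0) → fcL k G = 0) := by
  have hs : Summable (fun p => hh α (40 ^ p) (g p)) := by
    refine Summable.of_norm_bounded (g := fun p => (1 / 2 : ℝ) ^ p * C)
      ((summable_geometric_of_lt_one (by norm_num) (by norm_num)).mul_right C) (fun p => ?_)
    refine (hh_norm _ _ _).trans ?_
    refine (mul_le_mul_of_nonneg_left (hg p) (by positivity)).trans (le_of_eq ?_)
    push_cast
    rw [← mul_assoc, ← mul_pow]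
    norm_num
  refine ⟨∑' p, hh α (40 ^ p) (g p), fun k => ⟨?_, ?_⟩⟩
  · have h1 := (fcL k).hasSum hs.hasSum
    have h2 := h1.mul_left (1 - ex (-(k * α)))
    have e1 : fcL k ((∑' p, hh α (40 ^ p) (g p)) -
        trL ((α : ℝ) : UnitAddCircle) (∑' p, hh α (40 ^ p) (g p))) =
        (1 - ex (-(k * α))) * fcL k (∑' p, hh α (40 ^ p) (g p)) := by
      rw [map_sub]
      have : fcL k (trL ((α : ℝ) : UnitAddCircle) (∑' p, hh α (40 ^ p) (g p))) =
          ex (-(k * α)) * fcL k (∑' p, hh α (40 ^ p) (g p)) := by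
        rw [fcL_apply, fcL_apply, fc_trL, fou]
        congr 2
        push_cast
        ring
      rw [this]
      ring
    rw [e1]
    refine h2.congr_fun ?_
    intro p
    rw [hh_fc, ← mul_assoc, mul_neg_geom_sum]
  · intro h0
    rw [(fcL k).map_tsum hs]
    rw [tsum_congr (fun p => ?_), tsum_zero]
    rw [hh_fc, h0 p, mul_zero]

/-- never separated -/
def Unsep {K : ℕ} (c : ℕ → ℕ → Fin K) (i j : ℕ) : Prop := ∀ q ≤ min i j, c q i = c q j

theorem hasSum_sep {K : ℕ} (c : ℕ → ℕ → Fin K) (i j : ℕ) (F : ℂ) (T : ℕ → ℂ)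
    (hT : ∀ p, T p =
      if p ≤ i ∧ p ≤ j ∧ (∀ q < p, c q i = c q j) ∧ c p i ≠ c p j then F else 0)
    (V : ℂ) (hV : HasSum T V) :
    (Unsep c i j → V = 0) ∧ (¬ Unsep c i j → V = F) := by
  classical
  constructor
  · intro hu
    have : T = fun _ => 0 := by
      funext p
      rw [hT, if_neg]
      rintro ⟨h1, h2, _, h4⟩
      exact h4 (hu p (le_min h1 h2))
    rw [this] at hV
    exact hV.unique hasSum_zero
  · intro hu
    unfold Unsep at hu
    push Not at hu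
    obtain ⟨q0, hq0, hne⟩ := hu
    have hex : ∃ p, c p i ≠ c p j := ⟨q0, hne⟩
    set P := Nat.find hex with hP
    have hP1 : c P i ≠ c P j := Nat.find_spec hex
    have hP2 : ∀ q < P, c q i = c q j := fun q hq => not_not.mp (Nat.find_min hex hq)
    have hP3 : P ≤ q0 := Nat.find_min' hex hne
    have : T = fun p => if p = P then F else 0 := by
      funext p
      rw [hT]
      by_cases hp : p = P
      · subst hp
        rw [if_pos ⟨(hP3.trans hq0).trans (min_le_left _ _), (hP3.trans hq0).trans (min_le_right _ _),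
          hP2, hP1⟩, if_pos rfl]
      · rw [if_neg hp, if_neg]
        rintro ⟨_, _, h3, h4⟩
        rcases lt_or_gt_of_ne hp with h | h
        · exact h4 (hP2 p h)
        · exact hP1 (h3 P h)
    rw [this] at hV
    exact hV.unique (hasSum_ite_eq P F)

theorem sum_l {K : ℕ} (c : ℕ → ℕ → Fin K) (p i j : ℕ) (F : ℂ) :
    ∑ l : Fin K, (if p ≤ i ∧ p ≤ j ∧ (∀ q < p, c q i = c q j) ∧ c p i = l ∧ c p j ≠ l
      then (1 : ℂ) else 0) * F =
    if p ≤ i ∧ p ≤ j ∧ (∀ q < p, c q i = c q j) ∧ c p i ≠ c p j then F else 0 := by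
  classical
  rw [Finset.sum_eq_single (c p i)]
  · by_cases h : p ≤ i ∧ p ≤ j ∧ (∀ q < p, c q i = c q j) ∧ c p i ≠ c p j
    · rw [if_pos h, if_pos ⟨h.1, h.2.1, h.2.2.1, rfl, h.2.2.2.symm⟩, one_mul]
    · rw [if_neg h, if_neg, zero_mul]
      rintro ⟨h1, h2, h3, _, h5⟩
      exact h ⟨h1, h2, h3, fun he => h5 he.symm⟩
  · intro l _ hl
    rw [if_neg, zero_mul]
    rintro ⟨_, _, _, h4, _⟩
    exact hl h4.symm
  · intro h
    exact absurd (Finset.mem_univ _) h

theorem core (hH : TaskHier) (hU : TaskU) (hB : TaskBlock) (hI : TaskInv) (hD : TaskDist)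
    (hP : TaskPhase) (hT : TaskTrans) (hM : TaskMult) (m : ℕ → ℤ) (hm : Fast m)
    (f : C(UnitAddCircle, ℂ)) (hf : f ∈ CE (diffSet m)) :
    ∃ (K : ℕ) (α : Fin K → UnitAddCircle) (G : Fin K → C(UnitAddCircle, ℂ)),
      (∀ l, G l ∈ CE (diffSet m)) ∧
      Summable (fun k : ℤ => ‖fourierCoeff (f - ∑ l, (G l - trL (α l) (G l)) :
        C(UnitAddCircle, ℂ)) k‖) := by
  classical
  obtain ⟨K, _, hK⟩ := hH
  have ha0 : ∀ i, mat m f i i = 0 := fun i => by unfold mat; rw [if_pos rfl]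
  obtain ⟨c, hc⟩ := hK (mat m f) (16 * ‖f‖) ha0 (hT m hm f hf)
  obtain ⟨α, hα⟩ := hP m hm K c
  have hα' : PhaseOK m c α := hα
  have hg : ∀ (l : Fin K) (p : ℕ), ∃ g : C(UnitAddCircle, ℂ), g ∈ CE (diffSet m) ∧
      ‖g‖ ≤ (1 / 80) ^ p * (16 * ‖f‖) ∧
      ∀ i j, i ≠ j → fourierCoeff g (m i - m j) =
        ph m c α p l i j * fourierCoeff f (m i - m j) := fun l p =>
    hM m hm f hf (ph m c α p l) (ph_schur m c α hB hI hα' p l) _
      (ph_bdd m c α hI hα' p l _ _ (hc p))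
  choose g hg1 hg2 hg3 using hg
  have hG := fun l => exists_G (α l) (16 * ‖f‖) (g l) (hg2 l)
  choose G hG' using hG
  refine ⟨K, fun l => ((α l : ℝ) : UnitAddCircle), G, fun l => ?_, ?_⟩
  · intro k hk
    exact (hG' l k).2 (fun p => hg1 l p k hk)
  · set R : C(UnitAddCircle, ℂ) :=
      f - ∑ l, (G l - trL ((α l : ℝ) : UnitAddCircle) (G l)) with hR
    have hmem : ∀ l, G l ∈ CE (diffSet m) := fun l k hk => (hG' l k).2 (fun p => hg1 l p k hk)
    have hRz : ∀ k, k ∉ diffSet m → fcL k R = 0 := by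
      intro k hk
      rw [hR, map_sub, map_sum]
      have h1 : fcL k f = 0 := hf k hk
      rw [h1, Finset.sum_eq_zero, sub_zero]
      intro l _
      rw [map_sub]
      have h2 : fcL k (G l) = 0 := hmem l k hk
      have h3 : fcL k (trL ((α l : ℝ) : UnitAddCircle) (G l)) = 0 :=
        trL_mem (hmem l) _ k hk
      rw [h2, h3, sub_zero]
    have hRc : ∀ i j, i ≠ j → fcL (m i - m j) R =
        if Unsep c i j then mat m f i j else 0 := by
      intro i j hij
      have hF : mat m f i j = fcL (m i - m j) f := by unfold mat; rw [if_neg hij]; rfl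
      have h1 : HasSum (fun p : ℕ => ∑ l : Fin K,
          (1 - ex (-(((m i - m j : ℤ) : ℝ) * α l)) ^ (40 ^ p)) * fcL (m i - m j) (g l p))
          (∑ l, fcL (m i - m j) (G l - trL ((α l : ℝ) : UnitAddCircle) (G l))) :=
        hasSum_sum (fun l _ => (hG' l (m i - m j)).1)
      have h2 := hasSum_sep c i j (mat m f i j) _ (fun p => ?_) _ h1
      · rw [hR, map_sub, map_sum, ← hF]
        by_cases hu : Unsep c i j
        · rw [if_pos hu, h2.1 hu, sub_zero]
        · rw [if_neg hu, h2.2 hu, sub_self]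
      · rw [← sum_l]
        refine Finset.sum_congr rfl (fun l _ => ?_)
        have e1 : fcL (m i - m j) (g l p) = ph m c α p l i j * mat m f i j := by
          rw [hF]; exact hg3 l p i j hij
        rw [e1, ← mul_assoc, key_id m c α hα']
    -- summability
    let ι : {P : ℕ × ℕ // P.1 ≠ P.2} → ℤ := fun P => m P.1.1 - m P.1.2
    have hinj : Function.Injective ι := by
      intro P Q hPQ
      have := hD m hm P.1.1 P.1.2 Q.1.1 Q.1.2 P.2 hPQ
      exact Subtype.ext (Prod.ext this.1 this.2)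
    have hz : ∀ k, k ∉ Set.range ι → ‖fourierCoeff R k‖ = 0 := by
      intro k hk
      rw [norm_eq_zero]
      apply hRz k
      rintro ⟨i, j, hij, rfl⟩
      exact hk ⟨⟨(i, j), hij⟩, rfl⟩
    rw [← hinj.summable_iff hz]
    have h3 := (hU K (mat m f) (16 * ‖f‖) c hc).comp_injective
      (Subtype.val_injective : Function.Injective
        (fun P : {P : ℕ × ℕ // P.1 ≠ P.2} => (P : ℕ × ℕ)))
    refine h3.congr (fun P => ?_)
    show (if ∀ q ≤ min P.1.1 P.1.2, c q P.1.1 = c q P.1.2 then ‖mat m f P.1.1 P.1.2‖ else 0) =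
      ‖fourierCoeff R (m P.1.1 - m P.1.2)‖
    have h4 := hRc P.1.1 P.1.2 P.2
    rw [fcL_apply] at h4
    rw [h4]
    unfold Unsep
    split_ifs <;> simp

theorem ac_diffSet (hH : TaskHier) (hU : TaskU) (hB : TaskBlock) (hI : TaskInv) (hD : TaskDist)
    (hP : TaskPhase) (hT : TaskTrans) (hM : TaskMult) (m : ℕ → ℤ) (hm : Fast m) :
    AutomaticContinuity (diffSet m) := by
  intro Φ hΦ
  have h0 : (0 : ℤ) ∉ diffSet m := by
    rintro ⟨i, j, hij, h⟩
    have : m i - m j = m j - m i := by omega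
    exact hij (hD m hm i j j i hij this).1
  have tr : ∀ (g : C(UnitAddCircle, ℂ)) (hg : g ∈ CE (diffSet m)) (a : UnitAddCircle),
      Φ ⟨trL a g, trL_mem hg a⟩ = Φ ⟨g, hg⟩ := fun g hg a =>
    hΦ ⟨g, hg⟩ ⟨trL a g, trL_mem hg a⟩ a (fun t => rfl)
  have trd : ∀ (g : C(UnitAddCircle, ℂ)) (hg : g ∈ CE (diffSet m)) (a : UnitAddCircle),
      Φ ((⟨g, hg⟩ : CE (diffSet m)) - ⟨trL a g, trL_mem hg a⟩) = 0 := by
    intro g hg a
    have h1 := LinearMap.map_sub Φ (⟨g, hg⟩ : CE (diffSet m)) ⟨trL a g, trL_mem hg a⟩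
    rw [tr g hg a, sub_self] at h1
    exact h1
  have key : ∀ f : CE (diffSet m), Φ f = 0 := by
    intro f
    obtain ⟨K, α, G, hG, hs⟩ := core hH hU hB hI hD hP hT hM m hm f f.2
    set R : C(UnitAddCircle, ℂ) := f - ∑ l, (G l - trL (α l) (G l)) with hR
    have hRm : R ∈ CE (diffSet m) := by
      rw [hR]
      refine Submodule.sub_mem _ f.2 (Submodule.sum_mem _ (fun l _ => ?_))
      exact Submodule.sub_mem _ (hG l) (trL_mem (hG l) _)
    obtain ⟨a, b, g, h, hg, hh', hfe⟩ := two_differences R hs (hRm 0 h0)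
    have hgm : g ∈ CE (diffSet m) := fun k hk => hg k (hRm k hk)
    have hhm : h ∈ CE (diffSet m) := fun k hk => hh' k (hRm k hk)
    have e1 : f = ((⟨g, hgm⟩ : CE (diffSet m)) - ⟨trL a g, trL_mem hgm a⟩) +
        ((⟨h, hhm⟩ : CE (diffSet m)) - ⟨trL b h, trL_mem hhm b⟩) +
        ∑ l, ((⟨G l, hG l⟩ : CE (diffSet m)) - ⟨trL (α l) (G l), trL_mem (hG l) (α l)⟩) := by
      apply Subtype.ext
      have : (f : C(UnitAddCircle, ℂ)) = R + ∑ l, (G l - trL (α l) (G l)) := by rw [hR]; abel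
      rw [this, hfe]
      simp only [Submodule.coe_add, Submodule.coe_sub, Submodule.coe_sum]
    rw [e1, map_add, map_add, map_sum, trd g hgm a, trd h hhm b, Finset.sum_eq_zero, add_zero,
      add_zero]
    intro l _
    exact trd (G l) (hG l) (α l)
  have : (Φ : CE (diffSet m) → ℂ) = fun _ => 0 := funext key
  rw [this]
  exact continuous_const

theorem not_sidon_near (hNS : TaskNS) (hSub : TaskSub) (m : ℕ → ℤ) (hm : Fast m)
    (S : Finset UnitAddCircle) (δ : ℝ) (hδ : 0 < δ) : ¬ IsSidon (diffSet m ∩ BohrSet S δ) := by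
  intro h
  obtain ⟨m', hm', hsub⟩ := hSub m hm S δ hδ
  exact hNS m' hm' (fun f hf => h f (CE_mono hsub hf))

end Pool.Agent.H681R3.DS
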