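import Pool.Agent.H681R3.DS.Asm2

set_option autoImplicit false

namespace Pool.Agent.H681R3.DS
open Finset AddCircle
open Pool.Agent.Results.MP_eb9c50_an.SidonNearZero

theorem core2 (hH : TaskHier) (hU : TaskU) (hB : TaskBlock) (hI : TaskInv) (hD : TaskDist)
    (hP : TaskPhase) (hT : TaskTrans) (hM : TaskMult) (m : ℕ → ℤ) (hm : Fast m)
    (f : C(UnitAddCircle, ℂ)) (hf : f ∈ CE (diffSet m)) :
    ∃ (K : ℕ) (α : Fin K → UnitAddCircle) (G : Fin K → C(UnitAddCircle, ℂ)),
      (∀ l, ∀ k, fcL k f = 0 → fcL k (G l) = 0) ∧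
      Summable (fun k : ℤ => ‖fourierCoeff (f - ∑ l, (G l - trL (α l) (G l)) :
        C(UnitAddCircle, ℂ)) k‖) := by
  classical
  obtain ⟨K, _, hK⟩ := hH
  have ha0 : ∀ i, mat m f i i = 0 := fun i => by unfold mat; rw [if_pos rfl]
  obtain ⟨c, hc⟩ := hK (mat m f) (16 * ‖f‖) ha0 (hT m hm f hf)
  obtain ⟨α, hα⟩ := hP m hm K c
  have hα' : PhaseOK m c α := hα
  have hg : ∀ (l : Fin K) (p : ℕ), ∃ g : C(UnitAddCircle, ℂ), g ∈ CE (diffSet m) ∧
      ‖g‖ ≤ (1 / 80) ^ p * (16 * ‖f‖) ∧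
      ∀ i j, i ≠ j → fourierCoeff g (m i - m j) =
        ph m c α p l i j * fourierCoeff f (m i - m j) := fun l p =>
    hM m hm f hf (ph m c α p l) (ph_schur m c α hB hI hα' p l) _
      (ph_bdd m c α hI hα' p l _ _ (hc p))
  choose g hg1 hg2 hg3 using hg
  have hG := fun l => exists_G (α l) (16 * ‖f‖) (g l) (hg2 l)
  choose G hG' using hG
  refine ⟨K, fun l => ((α l : ℝ) : UnitAddCircle), G, fun l => ?_, ?_⟩
  · intro k hk
    refine (hG' l k).2 (fun p => ?_)
    by_cases hk2 : k ∈ diffSet m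
    · obtain ⟨i, j, hij, rfl⟩ := hk2
      rw [fcL_apply, hg3 l p i j hij]
      rw [fcL_apply] at hk
      rw [hk, mul_zero]
    · exact hg1 l p k hk2
  · set R : C(UnitAddCircle, ℂ) :=
      f - ∑ l, (G l - trL ((α l : ℝ) : UnitAddCircle) (G l)) with hR
    have hmem : ∀ l, G l ∈ CE (diffSet m) := fun l k hk => (hG' l k).2 (fun p => hg1 l p k hk)
    have hRz : ∀ k, k ∉ diffSet m → fcL k R = 0 := by
      intro k hk
      rw [hR, map_sub, map_sum]
      have h1 : fcL k f = 0 := hf k hk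
      rw [h1, Finset.sum_eq_zero, sub_zero]
      intro l _
      rw [map_sub]
      have h2 : fcL k (G l) = 0 := hmem l k hk
      have h3 : fcL k (trL ((α l : ℝ) : UnitAddCircle) (G l)) = 0 :=
        trL_mem (hmem l) _ k hk
      rw [h2, h3, sub_zero]
    have hRc : ∀ i j, i ≠ j → fcL (m i - m j) R =
        if Unsep c i j then mat m f i j else 0 := by
      intro i j hij
      have hF : mat m f i j = fcL (m i - m j) f := by unfold mat; rw [if_neg hij]; rfl
      have h1 : HasSum (fun p : ℕ => ∑ l : Fin K,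
          (1 - ex (-(((m i - m j : ℤ) : ℝ) * α l)) ^ (40 ^ p)) * fcL (m i - m j) (g l p))
          (∑ l, fcL (m i - m j) (G l - trL ((α l : ℝ) : UnitAddCircle) (G l))) :=
        hasSum_sum (fun l _ => (hG' l (m i - m j)).1)
      have h2 := hasSum_sep c i j (mat m f i j) _ (fun p => ?_) _ h1
      · rw [hR, map_sub, map_sum, ← hF]
        by_cases hu : Unsep c i j
        · rw [if_pos hu, h2.1 hu, sub_zero]
        · rw [if_neg hu, h2.2 hu, sub_self]
      · rw [← sum_l]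
        refine Finset.sum_congr rfl (fun l _ => ?_)
        have e1 : fcL (m i - m j) (g l p) = ph m c α p l i j * mat m f i j := by
          rw [hF]; exact hg3 l p i j hij
        rw [e1, ← mul_assoc, key_id m c α hα']
    -- summability
    let ι : {P : ℕ × ℕ // P.1 ≠ P.2} → ℤ := fun P => m P.1.1 - m P.1.2
    have hinj : Function.Injective ι := by
      intro P Q hPQ
      have := hD m hm P.1.1 P.1.2 Q.1.1 Q.1.2 P.2 hPQ
      exact Subtype.ext (Prod.ext this.1 this.2)
    have hz : ∀ k, k ∉ Set.range ι → ‖fourierCoeff R k‖ = 0 := by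
      intro k hk
      rw [norm_eq_zero]
      apply hRz k
      rintro ⟨i, j, hij, rfl⟩
      exact hk ⟨⟨(i, j), hij⟩, rfl⟩
    rw [← hinj.summable_iff hz]
    have h3 := (hU K (mat m f) (16 * ‖f‖) c hc).comp_injective
      (Subtype.val_injective : Function.Injective
        (fun P : {P : ℕ × ℕ // P.1 ≠ P.2} => (P : ℕ × ℕ)))
    refine h3.congr (fun P => ?_)
    show (if ∀ q ≤ min P.1.1 P.1.2, c q P.1.1 = c q P.1.2 then ‖mat m f P.1.1 P.1.2‖ else 0) =
      ‖fourierCoeff R (m P.1.1 - m P.1.2)‖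
    have h4 := hRc P.1.1 P.1.2 P.2
    rw [fcL_apply] at h4
    rw [h4]
    unfold Unsep
    split_ifs <;> simp

theorem ac_subset (hH : TaskHier) (hU : TaskU) (hB : TaskBlock) (hI : TaskInv) (hD : TaskDist)
    (hP : TaskPhase) (hT : TaskTrans) (hM : TaskMult) (m : ℕ → ℤ) (hm : Fast m)
    (E : Set ℤ) (hE : ∀ k ∈ E, k ≠ 0 → k ∈ diffSet m) :
    AutomaticContinuity E := by
  intro Φ hΦ
  have tr : ∀ (g : C(UnitAddCircle, ℂ)) (hg : g ∈ CE E) (a : UnitAddCircle),
      Φ ⟨trL a g, trL_mem hg a⟩ = Φ ⟨g, hg⟩ := fun g hg a =>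
    hΦ ⟨g, hg⟩ ⟨trL a g, trL_mem hg a⟩ a (fun t => rfl)
  have trd : ∀ (g : C(UnitAddCircle, ℂ)) (hg : g ∈ CE E) (a : UnitAddCircle),
      Φ ((⟨g, hg⟩ : CE E) - ⟨trL a g, trL_mem hg a⟩) = 0 := by
    intro g hg a
    have h1 := LinearMap.map_sub Φ (⟨g, hg⟩ : CE E) ⟨trL a g, trL_mem hg a⟩
    rw [tr g hg a, sub_self] at h1
    exact h1
  have key : ∀ f : CE E, fourierCoeff (f : C(UnitAddCircle, ℂ)) 0 = 0 → Φ f = 0 := by
    intro f hf0
    have hfm : (f : C(UnitAddCircle, ℂ)) ∈ CE (diffSet m) := by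
      intro k hk
      by_cases hk0 : k = 0
      · rw [hk0]; exact hf0
      · exact f.2 k (fun hkE => hk (hE k hkE hk0))
    obtain ⟨K, α, G, hG0, hs⟩ := core2 hH hU hB hI hD hP hT hM m hm f hfm
    have hG : ∀ l, G l ∈ CE E := fun l k hk => hG0 l k (f.2 k hk)
    set R : C(UnitAddCircle, ℂ) := f - ∑ l, (G l - trL (α l) (G l)) with hR
    have hRm : R ∈ CE E := by
      rw [hR]
      refine Submodule.sub_mem _ f.2 (Submodule.sum_mem _ (fun l _ => ?_))
      exact Submodule.sub_mem _ (hG l) (trL_mem (hG l) _)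
    have hR0 : fourierCoeff R 0 = 0 := by
      have h1 : fcL 0 R = 0 := by
        rw [hR, map_sub, map_sum, fcL_apply 0 (f : C(UnitAddCircle, ℂ)), hf0,
          Finset.sum_eq_zero, sub_zero]
        intro l _
        have h2 : fcL 0 (G l) = 0 := hG0 l 0 hf0
        rw [map_sub, fcL_apply 0 (trL (α l) (G l)), fc_trL, ← fcL_apply, h2, mul_zero, sub_zero]
      exact h1
    obtain ⟨a, b, g, h, hg, hh', hfe⟩ := two_differences R hs hR0
    have hgm : g ∈ CE E := fun k hk => hg k (hRm k hk)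
    have hhm : h ∈ CE E := fun k hk => hh' k (hRm k hk)
    have e1 : f = ((⟨g, hgm⟩ : CE E) - ⟨trL a g, trL_mem hgm a⟩) +
        ((⟨h, hhm⟩ : CE E) - ⟨trL b h, trL_mem hhm b⟩) +
        ∑ l, ((⟨G l, hG l⟩ : CE E) - ⟨trL (α l) (G l), trL_mem (hG l) (α l)⟩) := by
      apply Subtype.ext
      have : (f : C(UnitAddCircle, ℂ)) = R + ∑ l, (G l - trL (α l) (G l)) := by rw [hR]; abel
      rw [this, hfe]
      simp only [Submodule.coe_add, Submodule.coe_sub, Submodule.coe_sum]
    rw [e1, map_add, map_add, map_sum, trd g hgm a, trd h hhm b, Finset.sum_eq_zero, add_zero,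
      add_zero]
    intro l _
    exact trd (G l) (hG l) (α l)
  by_cases h0 : (0 : ℤ) ∈ E
  · have hone : (fourier 0 : C(UnitAddCircle, ℂ)) ∈ CE E := by
      intro k hk
      rw [fourierCoeff_fourier]
      have : k ≠ 0 := fun h => hk (h ▸ h0)
      rw [Pi.single_eq_of_ne this]
    let u : CE E := ⟨fourier 0, hone⟩
    have hu : fourierCoeff (u : C(UnitAddCircle, ℂ)) 0 = 1 := by
      show fourierCoeff (fourier 0 : C(UnitAddCircle, ℂ)) 0 = 1
      rw [fourierCoeff_fourier]; simp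
    have hform : ∀ f : CE E, Φ f = fcL 0 (f : C(UnitAddCircle, ℂ)) * Φ u := by
      intro f
      have h1 : Φ (f + (-(fcL 0 (f : C(UnitAddCircle, ℂ)))) • u) = 0 := by
        apply key
        show fcL 0 ((f : C(UnitAddCircle, ℂ)) + (-(fcL 0 (f : C(UnitAddCircle, ℂ)))) •
          (u : C(UnitAddCircle, ℂ))) = 0
        rw [map_add, ContinuousLinearMap.map_smul, fcL_apply 0 (u : C(UnitAddCircle, ℂ)), hu]
        simp
      rw [map_add, map_smul, smul_eq_mul] at h1
      linear_combination h1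
    have : (Φ : CE E → ℂ) = fun f : CE E => fcL 0 (f : C(UnitAddCircle, ℂ)) * Φ u := funext hform
    rw [this]
    exact ((fcL 0).continuous.comp continuous_subtype_val).mul continuous_const
  · have : (Φ : CE E → ℂ) = fun _ => 0 := by
      ext f
      exact key f (f.2 0 h0)
    rw [this]
    exact continuous_const

/-- only the elements of `E` near `0` (Bohr topology) matter -/
theorem ac_near (hH : TaskHier) (hU : TaskU) (hB : TaskBlock) (hI : TaskInv) (hD : TaskDist)
    (hP : TaskPhase) (hT : TaskTrans) (hM : TaskMult) (m : ℕ → ℤ) (hm : Fast m)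
    (E : Set ℤ) (S : Finset UnitAddCircle) (δ : ℝ) (hδ : 0 < δ)
    (hE : ∀ k ∈ E, k ∈ BohrSet S δ → k ≠ 0 → k ∈ diffSet m) :
    AutomaticContinuity E :=
  (germ E S δ hδ).mpr (ac_subset hH hU hB hI hD hP hT hM m hm _
    (fun k hk hk0 => hE k hk.1 hk.2 hk0))

end Pool.Agent.H681R3.DS
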