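import Pool.Agent.Results.MP_eb9c50_an.SidonNearZero

set_option autoImplicit false

/-! Automatic continuity for difference sets `{m i - m j}` of fast growing sequences:
definitions and statements of the pieces. -/

namespace Pool.Agent.H681R3.DS
open Finset
open Pool.Agent.Results.MP_eb9c50_an.SidonNearZero

/-- the bilinear form with matrix `a` is bounded by `C` on the polydisc -/
def Bdd (a : ℕ → ℕ → ℂ) (C : ℝ) : Prop :=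
  ∀ (n : ℕ) (z w : ℕ → ℂ), (∀ i, ‖z i‖ ≤ 1) → (∀ j, ‖w j‖ ≤ 1) →
    ‖∑ i ∈ range n, ∑ j ∈ range n, a i j * z i * w j‖ ≤ C

/-- Schur multiplier of norm at most 1 for bounded bilinear forms -/
def Schur (φ : ℕ → ℕ → ℂ) : Prop :=
  ∀ (a : ℕ → ℕ → ℂ) (C : ℝ), Bdd a C → Bdd (fun i j => φ i j * a i j) C

/-- growth condition -/
def Fast (m : ℕ → ℤ) : Prop := 0 < m 0 ∧ ∀ i, 200 * 40 ^ (i + 1) * m i ≤ m (i + 1)

/-- the set of differences -/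
def diffSet (m : ℕ → ℤ) : Set ℤ := {k | ∃ i j, i ≠ j ∧ k = m i - m j}

/-- the matrix of a function with spectrum in `diffSet m` -/
noncomputable def mat (m : ℕ → ℤ) (f : C(UnitAddCircle, ℂ)) (i j : ℕ) : ℂ :=
  if i = j then 0 else fourierCoeff f (m i - m j)

/-- sign -/
def sg (b : Bool) : ℝ := if b then 1 else -1

/-- `e(x) = exp(2 pi i x)` -/
noncomputable def ex (x : ℝ) : ℂ := Complex.exp (2 * Real.pi * Complex.I * x)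

/-! ### finite combinatorial part -/

/-- Khintchine: 2^n sqrt(sum x_i^2) <= 2 sum over signs |sum e_i x_i| -/
def TaskKhin : Prop := ∀ (ι : Type) [Fintype ι] [DecidableEq ι] (x : ι → ℝ),
  Real.sqrt (∑ i, x i ^ 2) * 2 ^ Fintype.card ι ≤
    2 * ∑ s : ι → Bool, |∑ i, sg (s i) * x i|

/-- contraction principle -/
def TaskContr : Prop := ∀ (ι τ : Type) [Fintype ι] [DecidableEq ι] [Fintype τ] [Nonempty τ]
  (v : τ → ι → ℝ),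
  ∑ s : ι → Bool, univ.sup' univ_nonempty (fun t => ∑ i, sg (s i) * |v t i|) ≤
    ∑ s : ι → Bool, univ.sup' univ_nonempty (fun t => ∑ i, sg (s i) * v t i)

/-- symmetrization -/
def TaskSym : Prop := ∀ (n K : ℕ) (τ : Type) [Fintype τ] [Nonempty τ]
  (g : Fin n → Fin K → τ → ℝ), 1 ≤ K →
  ∑ c : Fin n → Fin K, univ.sup' univ_nonempty (fun t => ∑ i, g i (c i) t) ≤
    (K : ℝ) ^ n / K * univ.sup' univ_nonempty (fun t => ∑ i, ∑ l, g i l t) +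
    2 / 2 ^ n * ∑ c : Fin n → Fin K, ∑ s : Fin n → Bool,
      univ.sup' univ_nonempty (fun t => ∑ i, sg (s i) * g i (c i) t)

/-- random restriction to equal colours, independent colours of rows and columns -/
def TaskRect : Prop := ∀ (n K : ℕ) (A : Fin n → Fin n → ℝ) (C : ℝ), 1 ≤ K →
  (∀ x y : Fin n → Bool, |∑ i, ∑ j, A i j * sg (x i) * sg (y j)| ≤ C) →
  ∑ c : Fin n → Fin K, ∑ d : Fin n → Fin K,
    univ.sup' univ_nonempty (fun q : (Fin n → Bool) × (Fin n → Bool) =>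
      ∑ i, ∑ j, (if c i = d j then A i j else 0) * sg (q.1 i) * sg (q.2 j)) ≤
    6 * C / Real.sqrt K * ((K : ℝ) ^ n * (K : ℝ) ^ n)

/-- the same with equal colours for rows and columns, zero diagonal -/
def TaskReal : Prop := ∀ (n K : ℕ) (A : Fin n → Fin n → ℝ) (C : ℝ), 1 ≤ K → (∀ i, A i i = 0) →
  (∀ x y : Fin n → Bool, |∑ i, ∑ j, A i j * sg (x i) * sg (y j)| ≤ C) →
  ∑ c : Fin n → Fin K,
    univ.sup' univ_nonempty (fun q : (Fin n → Bool) × (Fin n → Bool) =>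
      ∑ i, ∑ j, (if c i = c j then A i j else 0) * sg (q.1 i) * sg (q.2 j)) ≤
    24 * C / Real.sqrt K * (K : ℝ) ^ n

/-- complex matrices, finite sections -/
def TaskFin : Prop := ∀ ρ : ℝ, 0 < ρ → ∃ K : ℕ, 1 ≤ K ∧
  ∀ (n : ℕ) (a : ℕ → ℕ → ℂ) (C : ℝ), (∀ i, a i i = 0) →
  (∀ z w : ℕ → ℂ, (∀ i, ‖z i‖ ≤ 1) → (∀ j, ‖w j‖ ≤ 1) →
    ‖∑ i ∈ range n, ∑ j ∈ range n, a i j * z i * w j‖ ≤ C) →
  ∃ c : ℕ → Fin K, ∀ z w : ℕ → ℂ, (∀ i, ‖z i‖ ≤ 1) → (∀ j, ‖w j‖ ≤ 1) →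
    ‖∑ i ∈ range n, ∑ j ∈ range n, (if c i = c j then a i j else 0) * z i * w j‖ ≤ ρ * C

/-- one step, infinite matrices -/
def TaskOneStep : Prop := ∀ ρ : ℝ, 0 < ρ → ∃ K : ℕ, 1 ≤ K ∧
  ∀ (a : ℕ → ℕ → ℂ) (C : ℝ), (∀ i, a i i = 0) → Bdd a C →
  ∃ c : ℕ → Fin K, Bdd (fun i j => if c i = c j then a i j else 0) (ρ * C)

/-- the hierarchical colouring -/
def TaskHier : Prop := ∃ K : ℕ, 1 ≤ K ∧ ∀ (a : ℕ → ℕ → ℂ) (C : ℝ), (∀ i, a i i = 0) → Bdd a C →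
  ∃ c : ℕ → ℕ → Fin K, ∀ p : ℕ,
    Bdd (fun i j => if p ≤ i ∧ p ≤ j ∧ ∀ q < p, c q i = c q j then a i j else 0)
      ((1 / 80) ^ p * C)

/-- pairs that are never separated are summable -/
def TaskU : Prop := ∀ (K : ℕ) (a : ℕ → ℕ → ℂ) (C : ℝ) (c : ℕ → ℕ → Fin K),
  (∀ p : ℕ, Bdd (fun i j => if p ≤ i ∧ p ≤ j ∧ ∀ q < p, c q i = c q j then a i j else 0)
      ((1 / 80) ^ p * C)) →
  Summable (fun P : ℕ × ℕ =>
    if ∀ q ≤ min P.1 P.2, c q P.1 = c q P.2 then ‖a P.1 P.2‖ else 0)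

/-! ### Schur multipliers -/

def TaskBlock : Prop := ∀ (K : ℕ) (κ : ℕ → Fin K), Schur (fun i j => if κ i = κ j then 1 else 0)

def TaskInv : Prop := ∀ u v : ℕ → ℂ, (∀ i, ‖u i‖ = 1) → (∀ j, ‖v j‖ = 1) →
  (∀ i, ‖1 - u i‖ ≤ 1 / 4) → (∀ j, ‖1 - v j‖ ≤ 1 / 4) → Schur (fun i j => 1 / (1 + u i * v j))

/-! ### arithmetic part -/

def TaskDist : Prop := ∀ m : ℕ → ℤ, Fast m → ∀ i j k l : ℕ, i ≠ j → m i - m j = m k - m l →
  i = k ∧ j = l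

def TaskNested : Prop := ∀ m : ℕ → ℤ, Fast m → ∀ θ : ℕ → ℝ, ∃ a : ℝ, ∀ i : ℕ, ∃ (k : ℤ) (e : ℝ),
  0 ≤ e ∧ e ≤ 1 / (50 * 40 ^ i) ∧ (m i : ℝ) * a = θ i + k + e

def TaskPhase : Prop := ∀ m : ℕ → ℤ, Fast m → ∀ (K : ℕ) (c : ℕ → ℕ → Fin K),
  ∃ a : Fin K → ℝ, ∀ (l : Fin K) (p i : ℕ), p ≤ i →
    (c p i = l → ‖1 + ex (-(40 ^ p * m i * a l))‖ ≤ 1 / 4) ∧
    (c p i ≠ l → ‖1 - ex (40 ^ p * m i * a l)‖ ≤ 1 / 4)

/-! ### analytic part -/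

def TaskTrans : Prop := ∀ m : ℕ → ℤ, Fast m → ∀ f : C(UnitAddCircle, ℂ), f ∈ CE (diffSet m) →
  Bdd (mat m f) (16 * ‖f‖)

def TaskMult : Prop := ∀ m : ℕ → ℤ, Fast m → ∀ f : C(UnitAddCircle, ℂ), f ∈ CE (diffSet m) →
  ∀ φ : ℕ → ℕ → ℂ, Schur φ → ∀ D : ℝ, Bdd (fun i j => φ i j * mat m f i j) D →
  ∃ g : C(UnitAddCircle, ℂ), g ∈ CE (diffSet m) ∧ ‖g‖ ≤ D ∧
    ∀ i j, i ≠ j → fourierCoeff g (m i - m j) = φ i j * fourierCoeff f (m i - m j)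

/-- the difference set is not a Sidon set -/
def TaskNS : Prop := ∀ m : ℕ → ℤ, Fast m → ¬ IsSidon (diffSet m)

/-- Bohr neighbourhoods contain the difference set of a subsequence -/
def TaskSub : Prop := ∀ m : ℕ → ℤ, Fast m → ∀ (S : Finset UnitAddCircle) (δ : ℝ), 0 < δ →
  ∃ m' : ℕ → ℤ, Fast m' ∧ diffSet m' ⊆ diffSet m ∩ BohrSet S δ

end Pool.Agent.H681R3.DS
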