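import Pool.Agent.H681R3.DS.Stmts

set_option autoImplicit false

/-! TaskBlock: the block diagonal truncation is a Schur multiplier of norm at most 1. -/

namespace Pool.Agent.H681R3.DS.TBlock

open Finset

/-- complex sign -/
def c (b : Bool) : ℂ := if b then 1 else -1

lemma c_mul_self (b : Bool) : c b * c b = 1 := by cases b <;> simp [c]

lemma c_not (b : Bool) : c (!b) = - c b := by cases b <;> simp [c]

lemma norm_c (b : Bool) : ‖c b‖ = 1 := by cases b <;> simp [c]

lemma sum_c {K : ℕ} (k l : Fin K) :
    ∑ s : Fin K → Bool, c (s k) * c (s l) = if k = l then (2 : ℂ) ^ K else 0 := by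
  by_cases h : k = l
  · subst h
    simp [c_mul_self]
  · rw [if_neg h]
    have hinv : Function.Involutive (fun s : Fin K → Bool => Function.update s k (!(s k))) := by
      intro s
      funext x
      by_cases hx : x = k
      · subst hx; simp
      · simp [Function.update_of_ne hx]
    have h1 : ∑ s : Fin K → Bool, c (s k) * c (s l) =
        ∑ s : Fin K → Bool, -(c (s k) * c (s l)) := by
      rw [← Equiv.sum_comp (Function.Involutive.toPerm _ hinv)]
      refine Finset.sum_congr rfl fun s _ => ?_
      simp only [Function.Involutive.coe_toPerm, Function.update_self,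
        Function.update_of_ne (Ne.symm h), c_not, neg_mul]
    rw [Finset.sum_neg_distrib] at h1
    have h2 : (2 : ℂ) * ∑ s : Fin K → Bool, c (s k) * c (s l) = 0 := by
      linear_combination h1
    exact (mul_eq_zero.1 h2).resolve_left two_ne_zero

theorem t : Pool.Agent.H681R3.DS.TaskBlock := by
  intro K κ a C ha n z w hz hw
  have key : ∀ i j, (2 : ℂ) ^ K * ((if κ i = κ j then (1 : ℂ) else 0) * a i j * z i * w j) =
      ∑ s : Fin K → Bool, a i j * (c (s (κ i)) * z i) * (c (s (κ j)) * w j) := by
    intro i j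
    have h := sum_c (κ i) (κ j)
    have e : ∑ s : Fin K → Bool, a i j * (c (s (κ i)) * z i) * (c (s (κ j)) * w j) =
        (a i j * z i * w j) * ∑ s : Fin K → Bool, c (s (κ i)) * c (s (κ j)) := by
      rw [Finset.mul_sum]
      refine Finset.sum_congr rfl fun s _ => ?_
      ring
    rw [e, h]
    split_ifs <;> ring
  have hsum : (2 : ℂ) ^ K * ∑ i ∈ range n, ∑ j ∈ range n,
      (if κ i = κ j then (1 : ℂ) else 0) * a i j * z i * w j =
      ∑ s : Fin K → Bool, ∑ i ∈ range n, ∑ j ∈ range n,
        a i j * (c (s (κ i)) * z i) * (c (s (κ j)) * w j) := by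
    rw [Finset.mul_sum]
    have e1 : ∀ i ∈ range n, (2 : ℂ) ^ K * ∑ j ∈ range n,
        (if κ i = κ j then (1 : ℂ) else 0) * a i j * z i * w j =
        ∑ s : Fin K → Bool, ∑ j ∈ range n, a i j * (c (s (κ i)) * z i) * (c (s (κ j)) * w j) := by
      intro i _
      rw [Finset.mul_sum, Finset.sum_comm]
      exact Finset.sum_congr rfl fun j _ => key i j
    rw [Finset.sum_congr rfl e1, Finset.sum_comm]
  have hb : ‖(2 : ℂ) ^ K * ∑ i ∈ range n, ∑ j ∈ range n,
      (if κ i = κ j then (1 : ℂ) else 0) * a i j * z i * w j‖ ≤ 2 ^ K * C := by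
    rw [hsum]
    refine (norm_sum_le _ _).trans ?_
    have : ∀ s ∈ (Finset.univ : Finset (Fin K → Bool)), ‖∑ i ∈ range n, ∑ j ∈ range n,
        a i j * (c (s (κ i)) * z i) * (c (s (κ j)) * w j)‖ ≤ C := by
      intro s _
      refine ha n (fun i => c (s (κ i)) * z i) (fun j => c (s (κ j)) * w j) (fun i => ?_) (fun j => ?_)
      · rw [norm_mul, norm_c, one_mul]; exact hz i
      · rw [norm_mul, norm_c, one_mul]; exact hw j
    refine (Finset.sum_le_sum this).trans ?_
    simp
  rw [norm_mul, norm_pow, Complex.norm_ofNat] at hb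
  exact le_of_mul_le_mul_left hb (by positivity)

end Pool.Agent.H681R3.DS.TBlock
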