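import Pool.Agent.H681R3.DS.Stmts

set_option autoImplicit false

/-!
# The contraction principle
-/

namespace Pool.Agent.H681R3.DS.TContr

open Finset
open Pool.Agent.H681R3.DS

variable {τ : Type} [Fintype τ] [Nonempty τ]

theorem two (F x : τ → ℝ) :
    univ.sup' univ_nonempty (fun t => F t + |x t|) + univ.sup' univ_nonempty (fun t => F t - |x t|) ≤
      univ.sup' univ_nonempty (fun t => F t + x t) + univ.sup' univ_nonempty (fun t => F t - x t) := by
  obtain ⟨t, -, ht⟩ := exists_mem_eq_sup' (univ_nonempty (α := τ)) (fun t => F t + |x t|)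
  obtain ⟨t', -, ht'⟩ := exists_mem_eq_sup' (univ_nonempty (α := τ)) (fun t => F t - |x t|)
  rw [ht, ht']
  have p1 : ∀ r, F r + x r ≤ univ.sup' univ_nonempty (fun t => F t + x t) := fun r =>
    le_sup' (fun t => F t + x t) (mem_univ r)
  have p2 : ∀ r, F r - x r ≤ univ.sup' univ_nonempty (fun t => F t - x t) := fun r =>
    le_sup' (fun t => F t - x t) (mem_univ r)
  have h := abs_sub_abs_le_abs_sub (x t) (x t')
  rcases abs_cases (x t - x t') with ⟨h1, -⟩ | ⟨h1, -⟩
  · have := p1 t
    have := p2 t'
    linarith
  · have := p2 t
    have := p1 t'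
    linarith

/-- One coordinate. -/
theorem one {ι : Type} [Fintype ι] [DecidableEq ι] (a : ι) (w w' : τ → ι → ℝ)
    (h1 : ∀ t i, i ≠ a → w' t i = w t i) (h2 : ∀ t, w' t a = |w t a|) :
    ∑ s : ι → Bool, univ.sup' univ_nonempty (fun t => ∑ i, sg (s i) * w' t i) ≤
      ∑ s : ι → Bool, univ.sup' univ_nonempty (fun t => ∑ i, sg (s i) * w t i) := by
  have hinv : Function.Involutive (fun s : ι → Bool => Function.update s a (!s a)) := by
    intro s
    funext i
    by_cases hi : i = a
    · subst hi
      simp
    · simp [Function.update_of_ne hi]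
  have hsum : ∀ A : (ι → Bool) → ℝ,
      ∑ s, A (Function.update s a (!s a)) = ∑ s, A s := fun A =>
    Equiv.sum_comp hinv.toPerm A
  set A : (ι → Bool) → ℝ := fun s => univ.sup' univ_nonempty (fun t => ∑ i, sg (s i) * w' t i)
    with hA
  set B : (ι → Bool) → ℝ := fun s => univ.sup' univ_nonempty (fun t => ∑ i, sg (s i) * w t i)
    with hB
  have key : ∀ s : ι → Bool, A s + A (Function.update s a (!s a)) ≤
      B s + B (Function.update s a (!s a)) := by
    intro s
    set F : τ → ℝ := fun t => ∑ i ∈ univ.erase a, sg (s i) * w t i with hF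
    have e1 : ∀ (t : τ), ∑ i, sg (s i) * w' t i = F t + sg (s a) * |w t a| := by
      intro t
      rw [← sum_erase_add _ _ (mem_univ a), h2]
      congr 1
      refine sum_congr rfl fun i hi => ?_
      rw [h1 t i (ne_of_mem_erase hi)]
    have e2 : ∀ (t : τ), ∑ i, sg (s i) * w t i = F t + sg (s a) * w t a := by
      intro t
      rw [← sum_erase_add _ _ (mem_univ a)]
    have hsg : sg (!s a) = -sg (s a) := by
      unfold sg
      cases s a <;> simp
    have e3 : ∀ (t : τ), ∑ i, sg (Function.update s a (!s a) i) * w' t i =
        F t - sg (s a) * |w t a| := by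
      intro t
      rw [← sum_erase_add _ _ (mem_univ a), h2, Function.update_self, hsg, neg_mul, ← sub_eq_add_neg]
      congr 1
      refine sum_congr rfl fun i hi => ?_
      rw [h1 t i (ne_of_mem_erase hi), Function.update_of_ne (ne_of_mem_erase hi)]
    have e4 : ∀ (t : τ), ∑ i, sg (Function.update s a (!s a) i) * w t i =
        F t - sg (s a) * w t a := by
      intro t
      rw [← sum_erase_add _ _ (mem_univ a), Function.update_self, hsg, neg_mul, ← sub_eq_add_neg]
      congr 1
      refine sum_congr rfl fun i hi => ?_
      rw [Function.update_of_ne (ne_of_mem_erase hi)]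
    rw [hA, hB]
    simp only [e1, e2, e3, e4]
    have h := two F (fun t => w t a)
    cases hs : s a
    · have : sg false = -1 := by simp [sg]
      rw [this]
      simp only [neg_one_mul, ← sub_eq_add_neg, sub_neg_eq_add]
      linarith
    · have : sg true = 1 := by simp [sg]
      rw [this]
      simp only [one_mul]
      exact h
  have h3 := sum_le_sum fun (s : ι → Bool) (_ : s ∈ univ) => key s
  rw [sum_add_distrib, sum_add_distrib, hsum A, hsum B] at h3
  linarith

/-- The contraction principle. -/
theorem t : TaskContr := by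
  classical
  intro ι τ _ _ _ _ v
  have key : ∀ S : Finset ι,
      ∑ s : ι → Bool, univ.sup' univ_nonempty
        (fun t => ∑ i, sg (s i) * (if i ∈ S then |v t i| else v t i)) ≤
      ∑ s : ι → Bool, univ.sup' univ_nonempty (fun t => ∑ i, sg (s i) * v t i) := by
    intro S
    induction S using Finset.induction_on with
    | empty => simp
    | insert a S ha ih =>
      refine le_trans ?_ ih
      refine one a (fun t i => if i ∈ S then |v t i| else v t i)
        (fun t i => if i ∈ insert a S then |v t i| else v t i) ?_ ?_
      · intro t i hi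
        simp [hi]
      · intro t
        simp [ha]
  have h := key univ
  simpa using h

end Pool.Agent.H681R3.DS.TContr
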