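import Pool.Agent.H681R3.DS.Stmts

set_option autoImplicit false

/-! Complex matrices from real matrices (piece TaskFin). -/

namespace Pool.Agent.H681R3.DS.TFin
open Finset
open Pool.Agent.H681R3.DS

lemma sg_abs (b : Bool) : |sg b| = 1 := by cases b <;> simp [sg]

lemma mul_sg (b : ℝ) : b * sg (decide (0 ≤ b)) = |b| := by
  by_cases h : 0 ≤ b
  · simp [sg, h, abs_of_nonneg h]
  · have h' : b < 0 := not_le.mp h
    simp [sg, h, abs_of_neg h']

lemma lin {n : ℕ} (b x : Fin n → ℝ) (hx : ∀ i, |x i| ≤ 1) :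
    |∑ i, b i * x i| ≤ ∑ i, b i * sg (decide (0 ≤ b i)) := by
  refine (Finset.abs_sum_le_sum_abs _ _).trans (Finset.sum_le_sum fun i _ => ?_)
  rw [mul_sg, abs_mul]
  exact mul_le_of_le_one_right (abs_nonneg _) (hx i)

lemma polar {n : ℕ} (M : Fin n → Fin n → ℝ) (N : ℝ)
    (h : ∀ x y : Fin n → Bool, ∑ i, ∑ j, M i j * sg (x i) * sg (y j) ≤ N)
    (x y : Fin n → ℝ) (hx : ∀ i, |x i| ≤ 1) (hy : ∀ i, |y i| ≤ 1) :
    |∑ i, ∑ j, M i j * x i * y j| ≤ N := by
  have step1 : ∀ t : Fin n → Bool, ∑ i, ∑ j, M i j * x i * sg (t j) ≤ N := by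
    intro t
    have e : ∑ i, ∑ j, M i j * x i * sg (t j) = ∑ i, (∑ j, M i j * sg (t j)) * x i := by
      refine Finset.sum_congr rfl fun i _ => ?_
      rw [Finset.sum_mul]
      exact Finset.sum_congr rfl fun j _ => by ring
    rw [e]
    refine (le_abs_self _).trans ((lin _ x hx).trans ?_)
    refine le_trans (le_of_eq ?_) (h (fun i => decide (0 ≤ ∑ j, M i j * sg (t j))) t)
    refine Finset.sum_congr rfl fun i _ => ?_
    rw [Finset.sum_mul]
    exact Finset.sum_congr rfl fun j _ => by ring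
  have e : ∑ i, ∑ j, M i j * x i * y j = ∑ j, (∑ i, M i j * x i) * y j := by
    rw [Finset.sum_comm]
    exact Finset.sum_congr rfl fun j _ => by rw [Finset.sum_mul]
  rw [e]
  refine (lin _ y hy).trans ?_
  refine le_trans (le_of_eq ?_) (step1 fun j => decide (0 ≤ ∑ i, M i j * x i))
  rw [Finset.sum_comm]
  exact Finset.sum_congr rfl fun j _ => by rw [Finset.sum_mul]

lemma cpx {n : ℕ} (M : Fin n → Fin n → ℝ) (N : ℝ)
    (h : ∀ x y : Fin n → Bool, ∑ i, ∑ j, M i j * sg (x i) * sg (y j) ≤ N)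
    (z w : Fin n → ℂ) (hz : ∀ i, ‖z i‖ ≤ 1) (hw : ∀ i, ‖w i‖ ≤ 1) :
    ‖∑ i, ∑ j, ((M i j : ℝ) : ℂ) * z i * w j‖ ≤ 4 * N := by
  have hr : ∀ u : Fin n → ℂ, (∀ i, ‖u i‖ ≤ 1) → ∀ i, |(u i).re| ≤ 1 := fun u hu i =>
    (Complex.abs_re_le_norm _).trans (hu i)
  have hi : ∀ u : Fin n → ℂ, (∀ i, ‖u i‖ ≤ 1) → ∀ i, |(u i).im| ≤ 1 := fun u hu i =>
    (Complex.abs_im_le_norm _).trans (hu i)
  have b1 := polar M N h _ _ (hr z hz) (hr w hw)
  have b2 := polar M N h _ _ (hi z hz) (hi w hw)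
  have b3 := polar M N h _ _ (hr z hz) (hi w hw)
  have b4 := polar M N h _ _ (hi z hz) (hr w hw)
  have ere : (∑ i, ∑ j, ((M i j : ℝ) : ℂ) * z i * w j).re =
      (∑ i, ∑ j, M i j * (z i).re * (w j).re) - ∑ i, ∑ j, M i j * (z i).im * (w j).im := by
    rw [Complex.re_sum, ← Finset.sum_sub_distrib]
    refine Finset.sum_congr rfl fun i _ => ?_
    rw [Complex.re_sum, ← Finset.sum_sub_distrib]
    refine Finset.sum_congr rfl fun j _ => ?_
    simp only [Complex.mul_re, Complex.mul_im, Complex.ofReal_re, Complex.ofReal_im]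
    ring
  have eim : (∑ i, ∑ j, ((M i j : ℝ) : ℂ) * z i * w j).im =
      (∑ i, ∑ j, M i j * (z i).re * (w j).im) + ∑ i, ∑ j, M i j * (z i).im * (w j).re := by
    rw [Complex.im_sum, ← Finset.sum_add_distrib]
    refine Finset.sum_congr rfl fun i _ => ?_
    rw [Complex.im_sum, ← Finset.sum_add_distrib]
    refine Finset.sum_congr rfl fun j _ => ?_
    simp only [Complex.mul_re, Complex.mul_im, Complex.ofReal_re, Complex.ofReal_im]
    ring
  refine (Complex.norm_le_abs_re_add_abs_im _).trans ?_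
  rw [ere, eim]
  have c1 := abs_sub (∑ i, ∑ j, M i j * (z i).re * (w j).re) (∑ i, ∑ j, M i j * (z i).im * (w j).im)
  have c2 := abs_add_le (∑ i, ∑ j, M i j * (z i).re * (w j).im)
    (∑ i, ∑ j, M i j * (z i).im * (w j).re)
  linarith

theorem t (hR : TaskReal) : TaskFin := by
  intro ρ hρ
  obtain ⟨K0, hK0⟩ := exists_nat_ge ((192 / ρ) ^ 2)
  refine ⟨K0 + 1, by omega, ?_⟩
  intro n a C hdiag hC
  have hKpos : (0:ℝ) < ((K0 + 1 : ℕ) : ℝ) := by positivity
  have hspos : 0 < Real.sqrt ((K0 + 1 : ℕ) : ℝ) := Real.sqrt_pos.2 hKpos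
  have hs1 : 192 / ρ ≤ Real.sqrt ((K0 + 1 : ℕ) : ℝ) := by
    apply Real.le_sqrt_of_sq_le
    push_cast
    linarith
  have hs2 : 192 / Real.sqrt ((K0 + 1 : ℕ) : ℝ) ≤ ρ := by
    rw [div_le_iff₀ hspos]
    rw [div_le_iff₀ hρ] at hs1
    linarith
  have hC0 : 0 ≤ C := by
    have := hC (fun _ => 0) (fun _ => 0) (by simp) (by simp)
    simpa using this
  have hsg : ∀ x y : Fin n → Bool,
      ‖∑ i : Fin n, ∑ j : Fin n, a i j * ((sg (x i) : ℝ) : ℂ) * ((sg (y j) : ℝ) : ℂ)‖ ≤ C := by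
    intro x y
    have h1 := hC (fun i => if h : i < n then ((sg (x ⟨i, h⟩) : ℝ) : ℂ) else 0)
      (fun i => if h : i < n then ((sg (y ⟨i, h⟩) : ℝ) : ℂ) else 0)
      (fun i => by
        by_cases h : i < n
        · simp [h, Complex.norm_real, sg_abs]
        · simp [h])
      (fun i => by
        by_cases h : i < n
        · simp [h, Complex.norm_real, sg_abs]
        · simp [h])
    simp only [Finset.sum_range] at h1
    simpa using h1
  have hre := hR n (K0 + 1) (fun i j => (a i j).re) C (by omega) (fun i => by simp [hdiag])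
    (fun x y => by
      refine le_trans (le_of_eq ?_) ((Complex.abs_re_le_norm _).trans (hsg x y))
      congr 1
      rw [Complex.re_sum]
      refine Finset.sum_congr rfl fun i _ => ?_
      rw [Complex.re_sum]
      refine Finset.sum_congr rfl fun j _ => ?_
      simp [Complex.mul_re])
  have him := hR n (K0 + 1) (fun i j => (a i j).im) C (by omega) (fun i => by simp [hdiag])
    (fun x y => by
      refine le_trans (le_of_eq ?_) ((Complex.abs_im_le_norm _).trans (hsg x y))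
      congr 1
      rw [Complex.im_sum]
      refine Finset.sum_congr rfl fun i _ => ?_
      rw [Complex.im_sum]
      refine Finset.sum_congr rfl fun j _ => ?_
      simp [Complex.mul_im])
  have hsum := add_le_add hre him
  rw [← Finset.sum_add_distrib] at hsum
  have hne : (univ : Finset (Fin n → Fin (K0 + 1))).Nonempty := univ_nonempty
  have hconst : 24 * C / Real.sqrt ((K0 + 1 : ℕ) : ℝ) * (((K0 + 1 : ℕ) : ℝ)) ^ n +
      24 * C / Real.sqrt ((K0 + 1 : ℕ) : ℝ) * (((K0 + 1 : ℕ) : ℝ)) ^ n =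
      ∑ _c : Fin n → Fin (K0 + 1), 48 * C / Real.sqrt ((K0 + 1 : ℕ) : ℝ) := by
    rw [Finset.sum_const, Finset.card_univ, Fintype.card_fun, Fintype.card_fin, Fintype.card_fin,
      nsmul_eq_mul]
    push_cast
    ring
  rw [hconst] at hsum
  obtain ⟨c, -, hc⟩ := Finset.exists_le_of_sum_le hne hsum
  refine ⟨fun i => if h : i < n then c ⟨i, h⟩ else 0, ?_⟩
  intro z w hz hw
  have key : ∑ i ∈ range n, ∑ j ∈ range n,
      (if (if h : i < n then c ⟨i, h⟩ else 0) = (if h : j < n then c ⟨j, h⟩ else 0)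
        then a i j else 0) * z i * w j =
      (∑ i : Fin n, ∑ j : Fin n,
        (((if c i = c j then (a i j).re else 0 : ℝ)) : ℂ) * z i * w j) + Complex.I *
      (∑ i : Fin n, ∑ j : Fin n,
        (((if c i = c j then (a i j).im else 0 : ℝ)) : ℂ) * z i * w j) := by
    simp only [Finset.sum_range, Fin.is_lt, dite_true, Fin.eta]
    rw [Finset.mul_sum, ← Finset.sum_add_distrib]
    refine Finset.sum_congr rfl fun i _ => ?_
    rw [Finset.mul_sum, ← Finset.sum_add_distrib]
    refine Finset.sum_congr rfl fun j _ => ?_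
    split_ifs with h
    · conv_lhs => rw [← Complex.re_add_im (a i j)]
      ring
    · simp
  rw [key]
  have n1 := cpx (fun i j : Fin n => if c i = c j then (a i j).re else 0)
    (univ.sup' univ_nonempty (fun q : (Fin n → Bool) × (Fin n → Bool) =>
      ∑ i, ∑ j, (if c i = c j then (a i j).re else 0) * sg (q.1 i) * sg (q.2 j)))
    (fun x y => Finset.le_sup' (fun q : (Fin n → Bool) × (Fin n → Bool) =>
      ∑ i, ∑ j, (if c i = c j then (a i j).re else 0) * sg (q.1 i) * sg (q.2 j))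
      (Finset.mem_univ (x, y))) (fun i => z i) (fun i => w i) (fun i => hz i) (fun i => hw i)
  have n2 := cpx (fun i j : Fin n => if c i = c j then (a i j).im else 0)
    (univ.sup' univ_nonempty (fun q : (Fin n → Bool) × (Fin n → Bool) =>
      ∑ i, ∑ j, (if c i = c j then (a i j).im else 0) * sg (q.1 i) * sg (q.2 j)))
    (fun x y => Finset.le_sup' (fun q : (Fin n → Bool) × (Fin n → Bool) =>
      ∑ i, ∑ j, (if c i = c j then (a i j).im else 0) * sg (q.1 i) * sg (q.2 j))
      (Finset.mem_univ (x, y))) (fun i => z i) (fun i => w i) (fun i => hz i) (fun i => hw i)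
  refine (norm_add_le _ _).trans ?_
  rw [norm_mul, Complex.norm_I, one_mul]
  have h4 : 4 * (48 * C / Real.sqrt ((K0 + 1 : ℕ) : ℝ)) ≤ ρ * C := by
    have : 4 * (48 * C / Real.sqrt ((K0 + 1 : ℕ) : ℝ)) =
        192 / Real.sqrt ((K0 + 1 : ℕ) : ℝ) * C := by ring
    rw [this]
    exact mul_le_mul_of_nonneg_right hs2 hC0
  linarith

end Pool.Agent.H681R3.DS.TFin
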