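import Pool.Agent.H681R3.DS.Stmts

set_option autoImplicit false

namespace Pool.Agent.H681R3.DS.TInv
open Finset

noncomputable def form (n : ℕ) (b : ℕ → ℕ → ℂ) (z w : ℕ → ℂ) : ℂ :=
  ∑ i ∈ range n, ∑ j ∈ range n, b i j * z i * w j

theorem t : Pool.Agent.H681R3.DS.TaskInv := by
  intro u v hu hv hu1 hv1 a C hC n z w hz hw
  have hC0 : 0 ≤ C := by
    have := hC 0 (fun _ => 0) (fun _ => 0) (by simp) (by simp)
    simpa using this
  have hne : ∀ i j, 1 + u i * v j ≠ 0 := by
    intro i j h
    have h1 : (1 - u i) + u i * (1 - v j) = 2 := by linear_combination -h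
    have h2 : ‖(1 - u i) + u i * (1 - v j)‖ ≤ 1 / 4 + 1 / 4 := by
      refine (norm_add_le _ _).trans (add_le_add (hu1 i) ?_)
      rw [norm_mul, hu i, one_mul]
      exact hv1 j
    rw [h1] at h2
    norm_num at h2
  set b : ℕ → ℕ → ℂ := fun i j => 1 / (1 + u i * v j) * a i j with hb
  have key : ∀ k : ℕ, ∀ z w : ℕ → ℂ, (∀ i, ‖z i‖ ≤ 1) → (∀ j, ‖w j‖ ≤ 1) →
      ‖form n b z w‖ ≤ C + (∑ i ∈ range n, ∑ j ∈ range n, ‖b i j‖) / 4 ^ k := by
    intro k
    induction k with
    | zero =>
      intro z w hz hw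
      simp only [pow_zero, div_one]
      refine le_trans ?_ (le_add_of_nonneg_left hC0)
      unfold form
      refine (norm_sum_le _ _).trans
        (sum_le_sum fun i _ => (norm_sum_le _ _).trans (sum_le_sum fun j _ => ?_))
      rw [norm_mul, norm_mul]
      calc ‖b i j‖ * ‖z i‖ * ‖w j‖ ≤ ‖b i j‖ * 1 * 1 := by
            gcongr
            · exact hz i
            · exact hw j
        _ = _ := by ring
    | succ k ih =>
      intro z w hz hw
      have e : 2 * form n b z w = form n a z w
          + (1 / 4) * form n b (fun i => 4 * (1 - u i) * z i) w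
          + (1 / 4) * form n b (fun i => u i * z i) (fun j => 4 * (1 - v j) * w j) := by
        unfold form
        simp only [mul_sum, ← sum_add_distrib]
        refine sum_congr rfl fun i _ => sum_congr rfl fun j _ => ?_
        have h : a i j = (1 + u i * v j) * b i j := by
          simp only [hb]
          field_simp [hne i j]
        rw [h]
        ring
      have h0 : ‖form n a z w‖ ≤ C := hC n z w hz hw
      have h1 := ih (fun i => 4 * (1 - u i) * z i) w (fun i => by
        rw [norm_mul, norm_mul]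
        have h4 : ‖(4 : ℂ)‖ = 4 := by norm_num
        have h5 : ‖(4 : ℂ)‖ * ‖1 - u i‖ ≤ 1 := by rw [h4]; linarith [hu1 i]
        exact mul_le_one₀ h5 (norm_nonneg _) (hz i)) hw
      have h2 := ih (fun i => u i * z i) (fun j => 4 * (1 - v j) * w j) (fun i => by
        rw [norm_mul, hu i, one_mul]; exact hz i) (fun i => by
        rw [norm_mul, norm_mul]
        have h4 : ‖(4 : ℂ)‖ = 4 := by norm_num
        have h5 : ‖(4 : ℂ)‖ * ‖1 - v i‖ ≤ 1 := by rw [h4]; linarith [hv1 i]
        exact mul_le_one₀ h5 (norm_nonneg _) (hw i))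
      have h3 : 2 * ‖form n b z w‖ ≤ ‖form n a z w‖
          + (1 / 4) * ‖form n b (fun i => 4 * (1 - u i) * z i) w‖
          + (1 / 4) * ‖form n b (fun i => u i * z i) (fun j => 4 * (1 - v j) * w j)‖ := by
        have h6 : 2 * ‖form n b z w‖ = ‖2 * form n b z w‖ := by
          rw [norm_mul]; norm_num
        rw [h6, e]
        refine (norm_add_le _ _).trans (add_le_add ((norm_add_le _ _).trans (add_le_add le_rfl ?_)) ?_)
        · rw [norm_mul]; norm_num
        · rw [norm_mul]; norm_num
      have h7 : (∑ i ∈ range n, ∑ j ∈ range n, ‖b i j‖) / 4 ^ (k + 1) =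
          (∑ i ∈ range n, ∑ j ∈ range n, ‖b i j‖) / 4 ^ k / 4 := by
        rw [pow_succ, div_div]
      rw [h7]
      linarith
  have hlim : Filter.Tendsto (fun k : ℕ =>
      C + (∑ i ∈ range n, ∑ j ∈ range n, ‖b i j‖) / (4 : ℝ) ^ k) Filter.atTop (nhds (C + 0)) := by
    refine Filter.Tendsto.const_add C ?_
    refine Filter.Tendsto.div_atTop tendsto_const_nhds ?_
    exact tendsto_pow_atTop_atTop_of_one_lt (by norm_num)
  have := ge_of_tendsto' hlim (fun k => key k z w hz hw)
  rw [add_zero] at this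
  exact this

end Pool.Agent.H681R3.DS.TInv
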