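import Pool.Agent.H681R3.DS.Stmts

set_option autoImplicit false

namespace Pool.Agent.H681R3.DS.TKhin
open Finset
open Pool.Agent.H681R3.DS

variable {ι : Type} [Fintype ι] [DecidableEq ι]

lemma flip_inv (a : ι) :
    Function.Involutive (fun s : ι → Bool => Function.update s a (!s a)) := by
  intro s
  funext i
  by_cases h : i = a
  · subst h; simp
  · simp [Function.update_of_ne h]

lemma flip_sum (a : ι) (G : (ι → Bool) → ℝ)
    (h : ∀ s, G (Function.update s a (!s a)) = - G s) : ∑ s, G s = 0 := by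
  have h1 := Equiv.sum_comp ((flip_inv a).toPerm _) G
  have h2 : ∑ s, G ((flip_inv a).toPerm _ s) = ∑ s, - G s := by
    refine Finset.sum_congr rfl fun s _ => ?_
    exact h s
  rw [h2, Finset.sum_neg_distrib] at h1
  linarith

lemma sg_not (b : Bool) : sg (!b) = - sg b := by cases b <;> simp [sg]
lemma sg_sq (b : Bool) : sg b ^ 2 = 1 := by cases b <;> simp [sg]

lemma part_update (t : Finset ι) (a : ι) (ha : a ∉ t) (x : ι → ℝ) (s : ι → Bool) (b : Bool) :
    ∑ i ∈ t, sg (Function.update s a b i) * x i = ∑ i ∈ t, sg (s i) * x i := by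
  refine Finset.sum_congr rfl fun i hi => ?_
  have : i ≠ a := fun h => ha (h ▸ hi)
  rw [Function.update_of_ne this]

lemma odd_sum (t : Finset ι) (a : ι) (ha : a ∉ t) (x : ι → ℝ) (k : ℕ) :
    ∑ s : ι → Bool, (∑ i ∈ t, sg (s i) * x i) ^ k * sg (s a) = 0 := by
  apply flip_sum a
  intro s
  simp only [part_update t a ha x s, Function.update_self, sg_not]
  ring

lemma moment2 (x : ι → ℝ) (t : Finset ι) :
    ∑ s : ι → Bool, (∑ i ∈ t, sg (s i) * x i) ^ 2 =
      2 ^ Fintype.card ι * ∑ i ∈ t, x i ^ 2 := by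
  induction t using Finset.induction_on with
  | empty => simp
  | insert a t ha ih =>
    have e : ∀ s : ι → Bool, (∑ i ∈ insert a t, sg (s i) * x i) ^ 2 =
        (∑ i ∈ t, sg (s i) * x i) ^ 2 +
          2 * x a * ((∑ i ∈ t, sg (s i) * x i) ^ 1 * sg (s a)) + x a ^ 2 := by
      intro s
      rw [Finset.sum_insert ha]
      have := sg_sq (s a)
      linear_combination (x a ^ 2) * this
    simp only [e, Finset.sum_add_distrib, ← Finset.mul_sum, odd_sum t a ha x 1, ih]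
    rw [Finset.sum_insert ha]
    simp
    ring

lemma moment4 (x : ι → ℝ) (t : Finset ι) :
    ∑ s : ι → Bool, (∑ i ∈ t, sg (s i) * x i) ^ 4 ≤
      3 * 2 ^ Fintype.card ι * (∑ i ∈ t, x i ^ 2) ^ 2 := by
  induction t using Finset.induction_on with
  | empty => simp
  | insert a t ha ih =>
    have e : ∀ s : ι → Bool, (∑ i ∈ insert a t, sg (s i) * x i) ^ 4 =
        (∑ i ∈ t, sg (s i) * x i) ^ 4 +
          4 * x a * ((∑ i ∈ t, sg (s i) * x i) ^ 3 * sg (s a)) +
          6 * x a ^ 2 * (∑ i ∈ t, sg (s i) * x i) ^ 2 +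
          4 * x a ^ 3 * ((∑ i ∈ t, sg (s i) * x i) ^ 1 * sg (s a)) + x a ^ 4 := by
      intro s
      rw [Finset.sum_insert ha]
      have := sg_sq (s a)
      generalize (∑ i ∈ t, sg (s i) * x i) = S
      generalize sg (s a) = e at *
      linear_combination (6 * x a ^ 2 * S ^ 2 + 4 * x a ^ 3 * S * e + x a ^ 4 * (e ^ 2 + 1)) * this
    simp only [e, Finset.sum_add_distrib, ← Finset.mul_sum, odd_sum t a ha x 1,
      odd_sum t a ha x 3, moment2 x t]
    rw [Finset.sum_insert ha]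
    simp
    have h2 : (0 : ℝ) < 2 ^ Fintype.card ι := by positivity
    have h3 : 0 ≤ x a ^ 4 := by positivity
    nlinarith [mul_nonneg h2.le h3]

lemma pointwise (r u : ℝ) (hr : 0 ≤ r) (hu : 0 ≤ u) :
    5 / 2 * (9 * r ^ 2 * u ^ 2 - u ^ 4) ≤ 27 * r ^ 3 * u := by
  have h1 : 0 ≤ 5 * (u - 7 / 4 * r) ^ 2 * (u + 7 / 2 * r) := by positivity
  have h2 : 0 ≤ r ^ 2 * u := by positivity
  have h3 : 0 ≤ r ^ 3 := by positivity
  have h4 : 0 ≤ 5 * u ^ 3 - 45 * r ^ 2 * u + 54 * r ^ 3 := by nlinarith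
  have h5 := mul_nonneg hu h4
  nlinarith

theorem t : Pool.Agent.H681R3.DS.TaskKhin := by
  intro ι _ _ x
  set σ : ℝ := ∑ i, x i ^ 2 with hσ
  have hσ0 : 0 ≤ σ := Finset.sum_nonneg fun i _ => sq_nonneg _
  set r : ℝ := Real.sqrt σ with hr
  have hr0 : 0 ≤ r := Real.sqrt_nonneg _
  have hr2 : r ^ 2 = σ := Real.sq_sqrt hσ0
  have hT0 : 0 ≤ ∑ s : ι → Bool, |∑ i, sg (s i) * x i| :=
    Finset.sum_nonneg fun s _ => abs_nonneg _
  rcases hr0.eq_or_lt with h0 | hpos
  · rw [← h0]; simpa using hT0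
  have hsum : ∑ s : ι → Bool, (5 / 2 * (9 * r ^ 2 * (∑ i, sg (s i) * x i) ^ 2 -
      (∑ i, sg (s i) * x i) ^ 4)) ≤ ∑ s : ι → Bool, 27 * r ^ 3 * |∑ i, sg (s i) * x i| := by
    refine Finset.sum_le_sum fun s _ => ?_
    have := pointwise r |∑ i, sg (s i) * x i| hr0 (abs_nonneg _)
    have e2 : |∑ i, sg (s i) * x i| ^ 2 = (∑ i, sg (s i) * x i) ^ 2 := sq_abs _
    have e4 : |∑ i, sg (s i) * x i| ^ 4 = (∑ i, sg (s i) * x i) ^ 4 := by
      rw [show (4 : ℕ) = 2 * 2 from rfl, pow_mul, e2, ← pow_mul]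
    rw [e2, e4] at this
    exact this
  rw [← Finset.mul_sum, ← Finset.mul_sum, Finset.sum_sub_distrib, ← Finset.mul_sum,
    moment2 x univ, ← hσ] at hsum
  have h4 := moment4 x univ
  rw [← hσ] at h4
  set T : ℝ := ∑ s : ι → Bool, |∑ i, sg (s i) * x i| with hT
  set P : ℝ := 2 ^ Fintype.card ι with hP
  have hP0 : 0 < P := by positivity
  have key : r ^ 3 * (15 * (r * P)) ≤ r ^ 3 * (27 * T) := by
    have e1 : σ ^ 2 = r ^ 4 := by rw [← hr2]; ring
    rw [← hr2] at hsum h4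
    nlinarith
  have := le_of_mul_le_mul_left key (by positivity)
  linarith

end Pool.Agent.H681R3.DS.TKhin
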