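import Pool.Agent.H681R3.DS.Stmts

set_option autoImplicit false

/-! Schur multipliers act on continuous functions with spectrum in a difference set. -/

namespace Pool.Agent.H681R3.DS.TMult
open Finset MeasureTheory AddCircle
open Pool.Agent.Results.MP_eb9c50_an.SidonNearZero
open Pool.Agent.H681R3.DS

/-! ### Steklov means and density of polynomials -/

theorem continuous_trL (f : C(UnitAddCircle, ℂ)) :
    Continuous (fun t : ℝ => trL (t : UnitAddCircle) f) := by
  have h : Continuous (fun q : ℝ × UnitAddCircle => f (q.2 - (q.1 : UnitAddCircle))) := by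
    have h1 : Continuous (fun t : ℝ => (t : UnitAddCircle)) := AddCircle.continuous_mk' 1
    exact f.continuous.comp (continuous_snd.sub (h1.comp continuous_fst))
  have h2 := (ContinuousMap.curry ⟨_, h⟩).continuous
  convert h2 using 1
  funext t
  ext x
  rfl

/-- Steklov mean -/
noncomputable def Am (h : ℝ) (f : C(UnitAddCircle, ℂ)) : C(UnitAddCircle, ℂ) :=
  h⁻¹ • ∫ t in (0 : ℝ)..h, trL (t : UnitAddCircle) f

theorem Am_tendsto (f : C(UnitAddCircle, ℂ)) (δ : ℝ) (hδ : 0 < δ) :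
    ∃ h : ℝ, 0 < h ∧ ‖Am h f - f‖ < δ := by
  have hc := continuous_trL f
  have hd : HasDerivAt (fun u : ℝ => ∫ t in (0 : ℝ)..u, trL (t : UnitAddCircle) f)
      (trL ((0 : ℝ) : UnitAddCircle) f) 0 :=
    intervalIntegral.integral_hasDerivAt_right (hc.intervalIntegrable _ _)
      (hc.stronglyMeasurableAtFilter _ _) hc.continuousAt
  have h0 : trL ((0 : ℝ) : UnitAddCircle) f = f := by
    rw [AddCircle.coe_zero]; exact trL_zero f
  rw [h0, hasDerivAt_iff_tendsto_slope] at hd
  have h1 := hd.mono_left (nhdsWithin_mono (0 : ℝ) (fun x (hx : x ∈ Set.Ioi (0 : ℝ)) => (Set.mem_Ioi.1 hx).ne'))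
  have h2 := (Metric.tendsto_nhds.1 h1 δ hδ).and self_mem_nhdsWithin
  obtain ⟨h, hh, hpos⟩ := h2.exists
  refine ⟨h, hpos, ?_⟩
  rw [dist_eq_norm] at hh
  simpa [slope, Am] using hh

/-- multiplier of the Steklov mean -/
noncomputable def mu (h : ℝ) (k : ℤ) : ℂ :=
  (h⁻¹ : ℝ) • ∫ t in (0 : ℝ)..h, (fourier (-k) (t : UnitAddCircle) : ℂ)

theorem fc_Am (h : ℝ) (f : C(UnitAddCircle, ℂ)) (k : ℤ) :
    fourierCoeff (Am h f) k = mu h k * fourierCoeff f k := by
  rw [← fcL_apply, Am, ContinuousLinearMap.map_smul_of_tower]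
  have h1 : fcL k (∫ t in (0 : ℝ)..h, trL (t : UnitAddCircle) f) =
      ∫ t in (0 : ℝ)..h, fcL k (trL (t : UnitAddCircle) f) :=
    ((fcL k).intervalIntegral_comp_comm ((continuous_trL f).intervalIntegrable _ _)).symm
  rw [h1]
  simp_rw [fcL_apply, fc_trL]
  rw [intervalIntegral.integral_mul_const, mu]
  simp only [Complex.real_smul]
  ring

theorem mu_le (h : ℝ) (hh : 0 < h) (k : ℤ) (hk : k ≠ 0) : ‖mu h k‖ ≤ 1 / (h * |(k : ℝ)|) := by
  have hk' : (k : ℝ) ≠ 0 := by exact_mod_cast hk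
  have hkc : (k : ℂ) ≠ 0 := by exact_mod_cast hk
  set c : ℂ := 2 * Real.pi * Complex.I * ((-k : ℤ) : ℂ) with hc
  have hc0 : c ≠ 0 := by
    rw [hc]
    simp [Real.pi_ne_zero, hk]
  have h1 : ∀ t : ℝ, (fourier (-k) (t : UnitAddCircle) : ℂ) = Complex.exp (c * t) := by
    intro t
    rw [fourier_coe_apply, hc]
    congr 1
    push_cast
    ring
  have h2 : (∫ t in (0 : ℝ)..h, (fourier (-k) (t : UnitAddCircle) : ℂ)) =
      (Complex.exp (c * h) - Complex.exp (c * (0 : ℝ))) / c := by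
    simp_rw [h1]
    exact integral_exp_mul_complex hc0
  have hcn : ‖c‖ = 2 * Real.pi * |(k : ℝ)| := by
    rw [hc]
    simp [abs_of_pos Real.pi_pos]
  have hre : ∀ t : ℝ, ‖Complex.exp (c * t)‖ = 1 := by
    intro t
    rw [Complex.norm_exp]
    have : (c * t).re = 0 := by
      rw [hc]; simp
    rw [this, Real.exp_zero]
  have h3 : ‖Complex.exp (c * h) - Complex.exp (c * (0 : ℝ))‖ ≤ 2 := by
    calc _ ≤ ‖Complex.exp (c * h)‖ + ‖Complex.exp (c * (0 : ℝ))‖ := norm_sub_le _ _
      _ = 2 := by rw [hre, hre]; norm_num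
  rw [mu, norm_smul, h2, norm_div, hcn, Real.norm_of_nonneg (inv_nonneg.2 hh.le)]
  have hka : 0 < |(k : ℝ)| := abs_pos.2 hk'
  calc h⁻¹ * (‖Complex.exp (c * h) - Complex.exp (c * (0 : ℝ))‖ / (2 * Real.pi * |(k : ℝ)|))
      ≤ h⁻¹ * (2 / (2 * 1 * |(k : ℝ)|)) := by
        have := Real.pi_gt_three
        gcongr
        linarith
    _ = 1 / (h * |(k : ℝ)|) := by field_simp

theorem Am_mem {E : Set ℤ} {f : C(UnitAddCircle, ℂ)} (hf : f ∈ CE E) (h : ℝ) : Am h f ∈ CE E := by
  intro k hk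
  rw [fc_Am, hf k hk, mul_zero]

theorem norm_fc_le (f : C(UnitAddCircle, ℂ)) (k : ℤ) : ‖fourierCoeff f k‖ ≤ ‖f‖ := by
  have h := (fcL k).le_of_opNorm_le (LinearMap.mkContinuous_norm_le _ zero_le_one _) f
  rw [one_mul] at h
  exact h

theorem fc_fourier (k l : ℤ) : fourierCoeff (fourier l : C(UnitAddCircle, ℂ)) k =
    if k = l then 1 else 0 := by
  rw [fourierCoeff_fourier]
  simp [Pi.single_apply]

theorem dens {E : Set ℤ} {f : C(UnitAddCircle, ℂ)} (hf : f ∈ CE E) (δ : ℝ) (hδ : 0 < δ) :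
    ∃ P ∈ CE E, (∃ s : Finset ℤ, ∀ k, k ∉ s → fourierCoeff P k = 0) ∧ ‖f - P‖ < δ := by
  obtain ⟨h1, hh1, hd1⟩ := Am_tendsto f (δ / 3) (by positivity)
  obtain ⟨h2, hh2, hd2⟩ := Am_tendsto (Am h1 f) (δ / 3) (by positivity)
  set F := Am h2 (Am h1 f) with hF
  have hmem : F ∈ CE E := Am_mem (Am_mem hf h1) h2
  have hco : ∀ k, fourierCoeff F k = mu h2 k * (mu h1 k * fourierCoeff f k) := by
    intro k
    rw [hF, fc_Am, fc_Am]
  have hsum : Summable (fourierCoeff F) := by
    have hb : Summable (fun k : ℤ => (‖f‖ / (h1 * h2)) * (1 / (k : ℝ) ^ 2)) :=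
      (Real.summable_one_div_int_pow.2 (by norm_num)).mul_left _
    have hb' : Summable (fun k : ℤ => (‖f‖ / (h1 * h2)) * (1 / (k : ℝ) ^ 2) +
        (if k = 0 then ‖fourierCoeff F 0‖ else 0)) := by
      refine hb.add ?_
      exact (hasSum_ite_eq (0 : ℤ) _).summable
    refine Summable.of_norm_bounded hb' ?_
    intro k
    by_cases hk : k = 0
    · subst hk
      simp
    · rw [if_neg hk, add_zero, hco, norm_mul, norm_mul]
      have hk' : (k : ℝ) ≠ 0 := by exact_mod_cast hk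
      have hka : 0 < |(k : ℝ)| := abs_pos.2 hk'
      calc ‖mu h2 k‖ * (‖mu h1 k‖ * ‖fourierCoeff f k‖)
          ≤ (1 / (h2 * |(k : ℝ)|)) * ((1 / (h1 * |(k : ℝ)|)) * ‖f‖) := by
            gcongr
            · exact mu_le h2 hh2 k hk
            · exact mu_le h1 hh1 k hk
            · exact norm_fc_le f k
        _ = (‖f‖ / (h1 * h2)) * (1 / (k : ℝ) ^ 2) := by
            rw [← sq_abs (k : ℝ)]
            field_simp
  have hs := hasSum_fourier_series_of_summable hsum
  obtain ⟨s, hs'⟩ := (Metric.tendsto_nhds.1 hs (δ / 3) (by positivity)).exists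
  have hP : ∀ k, fourierCoeff (∑ i ∈ s, fourierCoeff F i • (fourier i : C(UnitAddCircle, ℂ)) :
      C(UnitAddCircle, ℂ)) k = if k ∈ s then fourierCoeff F k else 0 := by
    intro k
    rw [← fcL_apply, map_sum]
    simp only [map_smul, fcL_apply, fc_fourier, smul_eq_mul, mul_ite, mul_one, mul_zero]
    rw [Finset.sum_ite_eq]
  refine ⟨∑ i ∈ s, fourierCoeff F i • (fourier i : C(UnitAddCircle, ℂ)), ?_, ⟨s, ?_⟩, ?_⟩
  · intro k hk
    rw [hP, hmem k hk]
    simp
  · intro k hk
    rw [hP, if_neg hk]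
  · rw [dist_eq_norm] at hs'
    have e : f - ∑ i ∈ s, fourierCoeff F i • (fourier i : C(UnitAddCircle, ℂ)) =
        -(Am h1 f - f) + (-(F - Am h1 f)) +
          (-(∑ i ∈ s, fourierCoeff F i • (fourier i : C(UnitAddCircle, ℂ)) - F)) := by abel
    rw [e]
    calc _ ≤ ‖-(Am h1 f - f)‖ + ‖-(F - Am h1 f)‖ +
          ‖-(∑ i ∈ s, fourierCoeff F i • (fourier i : C(UnitAddCircle, ℂ)) - F)‖ :=
        norm_add₃_le
      _ < δ / 3 + δ / 3 + δ / 3 := by
        rw [norm_neg, norm_neg, norm_neg]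
        gcongr
      _ = δ := by ring

/-! ### The finite sections -/

/-- finite section -/
noncomputable def Tn (m : ℕ → ℤ) (b : ℕ → ℕ → ℂ) (n : ℕ) : C(UnitAddCircle, ℂ) :=
  ∑ i ∈ range n, ∑ j ∈ range n, b i j • (fourier (m i - m j) : C(UnitAddCircle, ℂ))

theorem Tn_apply (m : ℕ → ℤ) (b : ℕ → ℕ → ℂ) (n : ℕ) (x : UnitAddCircle) :
    Tn m b n x = ∑ i ∈ range n, ∑ j ∈ range n,
      b i j * (fourier (m i) x : ℂ) * (fourier (-m j) x : ℂ) := by
  unfold Tn
  rw [ContinuousMap.sum_apply]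
  refine Finset.sum_congr rfl fun i _ => ?_
  rw [ContinuousMap.sum_apply]
  refine Finset.sum_congr rfl fun j _ => ?_
  rw [ContinuousMap.smul_apply, sub_eq_add_neg, fourier_add, smul_eq_mul, mul_assoc]

theorem Tn_norm (m : ℕ → ℤ) (b : ℕ → ℕ → ℂ) (C : ℝ) (hb : Bdd b C) (n : ℕ) :
    ‖Tn m b n‖ ≤ C := by
  have hC : 0 ≤ C := by
    have := hb 0 (fun _ => 0) (fun _ => 0) (by simp) (by simp)
    simpa using this
  rw [ContinuousMap.norm_le _ hC]
  intro x
  rw [Tn_apply]
  have hn : ∀ k : ℤ, ‖(fourier k x : ℂ)‖ ≤ 1 := by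
    intro k
    have : ‖(fourier k x : ℂ)‖ = 1 := by rw [fourier_apply]; exact Circle.norm_coe _
    exact this.le
  exact hb n (fun i => (fourier (m i) x : ℂ)) (fun j => (fourier (-m j) x : ℂ))
    (fun i => hn _) (fun j => hn _)

theorem Tn_sub (m : ℕ → ℤ) (b b' : ℕ → ℕ → ℂ) (n : ℕ) :
    Tn m (fun i j => b i j - b' i j) n = Tn m b n - Tn m b' n := by
  unfold Tn
  rw [← Finset.sum_sub_distrib]
  refine Finset.sum_congr rfl fun i _ => ?_
  rw [← Finset.sum_sub_distrib]
  refine Finset.sum_congr rfl fun j _ => ?_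
  ext x
  simp only [ContinuousMap.smul_apply, ContinuousMap.sub_apply, smul_eq_mul]
  ring

theorem mat_sub (m : ℕ → ℤ) (f P : C(UnitAddCircle, ℂ)) (i j : ℕ) :
    mat m (f - P) i j = mat m f i j - mat m P i j := by
  unfold mat
  split_ifs
  · simp
  · rw [← fcL_apply, ← fcL_apply, ← fcL_apply, map_sub]

theorem fc_Tn (m : ℕ → ℤ) (b : ℕ → ℕ → ℂ) (n : ℕ) (k : ℤ) :
    fourierCoeff (Tn m b n) k = ∑ i ∈ range n, ∑ j ∈ range n,
      if k = m i - m j then b i j else 0 := by
  rw [← fcL_apply, Tn, map_sum]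
  refine Finset.sum_congr rfl fun i _ => ?_
  rw [map_sum]
  refine Finset.sum_congr rfl fun j _ => ?_
  rw [map_smul, fcL_apply, fc_fourier, smul_eq_mul, mul_ite, mul_one, mul_zero]

theorem eventually_const (m : ℕ → ℤ) (hdist : ∀ i j k l : ℕ, i ≠ j → m i - m j = m k - m l →
    i = k ∧ j = l) (φ : ℕ → ℕ → ℂ) (P : C(UnitAddCircle, ℂ)) (s : Finset ℤ)
    (hs : ∀ k, k ∉ s → fourierCoeff P k = 0) :
    ∃ N : ℕ, ∀ n, N ≤ n → Tn m (fun i j => φ i j * mat m P i j) n =
      Tn m (fun i j => φ i j * mat m P i j) N := by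
  have hfin : {q : ℕ × ℕ | q.1 ≠ q.2 ∧ m q.1 - m q.2 ∈ s}.Finite := by
    apply Set.Finite.of_injOn (f := fun q : ℕ × ℕ => m q.1 - m q.2) (t := (s : Set ℤ))
    · intro q hq
      exact hq.2
    · intro q hq q' hq' h
      have := hdist q.1 q.2 q'.1 q'.2 hq.1 h
      exact Prod.ext this.1 this.2
    · exact s.finite_toSet
  obtain ⟨N, hN⟩ : ∃ N : ℕ, ∀ q ∈ {q : ℕ × ℕ | q.1 ≠ q.2 ∧ m q.1 - m q.2 ∈ s}, q.1 < N ∧ q.2 < N := by
    obtain ⟨N1, h1⟩ := (hfin.image Prod.fst).bddAbove
    obtain ⟨N2, h2⟩ := (hfin.image Prod.snd).bddAbove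
    refine ⟨N1 + N2 + 1, fun q hq => ?_⟩
    have a1 : q.1 ≤ N1 := h1 ⟨q, hq, rfl⟩
    have a2 : q.2 ≤ N2 := h2 ⟨q, hq, rfl⟩
    omega
  have hzero : ∀ i j, (N ≤ i ∨ N ≤ j) → mat m P i j = 0 := by
    intro i j h
    unfold mat
    split_ifs with hij
    · rfl
    · apply hs
      intro hmem
      have := hN (i, j) ⟨hij, hmem⟩
      simp only at this
      omega
  refine ⟨N, fun n hn => ?_⟩
  unfold Tn
  symm
  have hsub : range N ⊆ range n := range_subset_range.2 hn
  rw [Finset.sum_subset hsub]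
  · refine Finset.sum_congr rfl fun i _ => ?_
    apply Finset.sum_subset hsub
    intro j _ hj
    have h0 := hzero i j (Or.inr (by simpa using hj))
    show (φ i j * mat m P i j) • (fourier (m i - m j) : C(UnitAddCircle, ℂ)) = 0
    rw [h0, mul_zero]
    ext x
    simp only [ContinuousMap.smul_apply, smul_eq_mul, zero_mul, ContinuousMap.zero_apply]
  · intro i _ hi
    apply Finset.sum_eq_zero
    intro j _
    have h0 := hzero i j (Or.inl (by simpa using hi))
    show (φ i j * mat m P i j) • (fourier (m i - m j) : C(UnitAddCircle, ℂ)) = 0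
    rw [h0, mul_zero]
    ext x
    simp only [ContinuousMap.smul_apply, smul_eq_mul, zero_mul, ContinuousMap.zero_apply]

theorem t : TaskTrans → TaskDist → TaskMult := by
  intro hT hD m hm f hf φ hφ D hb
  have hdist := hD m hm
  set b : ℕ → ℕ → ℂ := fun i j => φ i j * mat m f i j with hbdef
  have hcau : CauchySeq (Tn m b) := by
    rw [Metric.cauchySeq_iff']
    intro e he
    obtain ⟨P, hP, ⟨s, hs⟩, hPd⟩ := dens hf (e / 64) (by positivity)
    obtain ⟨N, hN⟩ := eventually_const m hdist φ P s hs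
    refine ⟨N, fun n hn => ?_⟩
    have hB : Bdd (fun i j => φ i j * mat m (f - P) i j) (16 * ‖f - P‖) :=
      hφ _ _ (hT m hm (f - P) (Submodule.sub_mem _ hf hP))
    have hdec : ∀ n', Tn m (fun i j => φ i j * mat m (f - P) i j) n' =
        Tn m b n' - Tn m (fun i j => φ i j * mat m P i j) n' := by
      intro n'
      rw [← Tn_sub]
      congr 1
      funext i j
      rw [mat_sub, hbdef]
      ring
    have e1 : Tn m b n - Tn m b N = Tn m (fun i j => φ i j * mat m (f - P) i j) n -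
        Tn m (fun i j => φ i j * mat m (f - P) i j) N := by
      rw [hdec, hdec, hN n hn]
      abel
    rw [dist_eq_norm, e1]
    calc _ ≤ ‖Tn m (fun i j => φ i j * mat m (f - P) i j) n‖ +
          ‖Tn m (fun i j => φ i j * mat m (f - P) i j) N‖ := norm_sub_le _ _
      _ ≤ 16 * ‖f - P‖ + 16 * ‖f - P‖ := add_le_add (Tn_norm m _ _ hB n) (Tn_norm m _ _ hB N)
      _ < e := by linarith
  obtain ⟨g, hg⟩ := cauchySeq_tendsto_of_complete hcau
  have hfc : ∀ k, Filter.Tendsto (fun n => fourierCoeff (Tn m b n) k) Filter.atTop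
      (nhds (fourierCoeff g k)) := by
    intro k
    exact ((fcL k).continuous.tendsto g).comp hg
  refine ⟨g, ?_, ?_, ?_⟩
  · intro k hk
    have hz : ∀ n, fourierCoeff (Tn m b n) k = 0 := by
      intro n
      rw [fc_Tn]
      apply Finset.sum_eq_zero
      intro i _
      apply Finset.sum_eq_zero
      intro j _
      by_cases hkk : k = m i - m j
      · rw [if_pos hkk]
        by_cases hij : i = j
        · simp [hbdef, mat, hij]
        · exact absurd ⟨i, j, hij, hkk⟩ hk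
      · rw [if_neg hkk]
    have := hfc k
    simp only [hz] at this
    exact (tendsto_nhds_unique this tendsto_const_nhds)
  · exact le_of_tendsto hg.norm (Filter.Eventually.of_forall fun n => Tn_norm m b D hb n)
  · intro i j hij
    have hval : ∀ n, i < n → j < n → fourierCoeff (Tn m b n) (m i - m j) = b i j := by
      intro n hi hj
      rw [fc_Tn]
      rw [Finset.sum_eq_single i]
      · rw [Finset.sum_eq_single j]
        · simp
        · intro j' _ hj'
          rw [if_neg]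
          intro h
          exact hj' ((hdist i j i j' hij h).2).symm
        · intro h
          exact absurd (Finset.mem_range.2 hj) h
      · intro i' _ hi'
        apply Finset.sum_eq_zero
        intro j' _
        rw [if_neg]
        intro h
        exact hi' ((hdist i j i' j' hij h).1).symm
      · intro h
        exact absurd (Finset.mem_range.2 hi) h
    have hlim : Filter.Tendsto (fun n => fourierCoeff (Tn m b n) (m i - m j)) Filter.atTop
        (nhds (b i j)) := by
      apply tendsto_const_nhds.congr'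
      filter_upwards [Filter.eventually_gt_atTop i, Filter.eventually_gt_atTop j] with n h1 h2
      exact (hval n h1 h2).symm
    have := tendsto_nhds_unique (hfc (m i - m j)) hlim
    rw [this, hbdef]
    simp [mat, hij]

end Pool.Agent.H681R3.DS.TMult
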