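import Pool.Agent.H681R3.DS.Stmts

set_option autoImplicit false

namespace Pool.Agent.H681R3.DS.TNS
open Finset
open Pool.Agent.Results.MP_eb9c50_an.SidonNearZero

/-- Hadamard matrices -/
theorem had (k : ℕ) : ∃ u : ℕ → ℕ → ℂ, (∀ r s, ‖u r s‖ = 1) ∧
    ∀ z : ℕ → ℂ, ∑ r ∈ range (2 ^ k), ‖∑ s ∈ range (2 ^ k), u r s * z s‖ ^ 2 =
      2 ^ k * ∑ s ∈ range (2 ^ k), ‖z s‖ ^ 2 := by
  induction k with
  | zero => exact ⟨fun _ _ => 1, by simp, fun z => by simp⟩
  | succ k ih =>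
    obtain ⟨u, hu, h⟩ := ih
    obtain ⟨U, hU⟩ : ∃ U : ℕ → ℕ → ℂ, ∀ r s, U r s =
      if r < 2 ^ k then (if s < 2 ^ k then u r s else u r (s - 2 ^ k)) else
      (if s < 2 ^ k then u (r - 2 ^ k) s else - u (r - 2 ^ k) (s - 2 ^ k)) :=
      ⟨_, fun _ _ => rfl⟩
    refine ⟨U, ?_, ?_⟩
    · intro r s
      rw [hU]
      split_ifs
      · exact hu _ _
      · exact hu _ _
      · exact hu _ _
      · rw [norm_neg]; exact hu _ _
    · intro z
      have hsp : ∀ {M : Type} [AddCommMonoid M] (w : ℕ → M),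
          ∑ x ∈ range (2 ^ (k + 1)), w x =
            ∑ x ∈ range (2 ^ k), w x + ∑ x ∈ range (2 ^ k), w (2 ^ k + x) := by
        intro M _ w
        rw [pow_succ, mul_two, Finset.sum_range_add]
      have e1 : ∀ r ∈ range (2 ^ k), ∑ s ∈ range (2 ^ (k + 1)), U r s * z s =
          ∑ s ∈ range (2 ^ k), u r s * z s + ∑ s ∈ range (2 ^ k), u r s * z (2 ^ k + s) := by
        intro r hr
        rw [hsp]
        congr 1
        · refine Finset.sum_congr rfl fun s hs => ?_
          rw [hU, if_pos (mem_range.1 hr), if_pos (mem_range.1 hs)]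
        · refine Finset.sum_congr rfl fun s hs => ?_
          rw [hU, if_pos (mem_range.1 hr), if_neg (by omega), Nat.add_sub_cancel_left]
      have e2 : ∀ r ∈ range (2 ^ k), ∑ s ∈ range (2 ^ (k + 1)), U (2 ^ k + r) s * z s =
          ∑ s ∈ range (2 ^ k), u r s * z s - ∑ s ∈ range (2 ^ k), u r s * z (2 ^ k + s) := by
        intro r hr
        rw [hsp, sub_eq_add_neg, ← Finset.sum_neg_distrib]
        congr 1
        · refine Finset.sum_congr rfl fun s hs => ?_
          rw [hU, if_neg (by omega), if_pos (mem_range.1 hs), Nat.add_sub_cancel_left]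
        · refine Finset.sum_congr rfl fun s hs => ?_
          rw [hU, if_neg (by omega), if_neg (by omega), Nat.add_sub_cancel_left,
            Nat.add_sub_cancel_left, neg_mul]
      have e3 : ∀ r ∈ range (2 ^ k), ‖∑ s ∈ range (2 ^ (k + 1)), U r s * z s‖ ^ 2 +
          ‖∑ s ∈ range (2 ^ (k + 1)), U (2 ^ k + r) s * z s‖ ^ 2 =
          2 * ‖∑ s ∈ range (2 ^ k), u r s * z s‖ ^ 2 +
            2 * ‖∑ s ∈ range (2 ^ k), u r s * z (2 ^ k + s)‖ ^ 2 := by
        intro r hr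
        rw [e1 r hr, e2 r hr]
        have hp := parallelogram_law_with_norm ℝ (∑ s ∈ range (2 ^ k), u r s * z s)
          (∑ s ∈ range (2 ^ k), u r s * z (2 ^ k + s))
        nlinarith [hp]
      rw [hsp, ← Finset.sum_add_distrib, Finset.sum_congr rfl e3, Finset.sum_add_distrib,
        ← Finset.mul_sum, ← Finset.mul_sum, h z, h fun s => z (2 ^ k + s), hsp]
      ring

theorem four (k : ℕ) : (4 : ℕ) ^ k = 2 ^ (2 * k) := by
  rw [pow_mul]; norm_num

theorem had4 (k : ℕ) : ∃ u : ℕ → ℕ → ℂ, (∀ r s, ‖u r s‖ = 1) ∧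
    ∀ z : ℕ → ℂ, ∑ r ∈ range (4 ^ k), ‖∑ s ∈ range (4 ^ k), u r s * z s‖ ^ 2 =
      4 ^ k * ∑ s ∈ range (4 ^ k), ‖z s‖ ^ 2 := by
  obtain ⟨u, hu, h⟩ := had (2 * k)
  refine ⟨u, hu, fun z => ?_⟩
  have h1 := h z
  rw [← four] at h1
  rw [h1]
  congr 1
  rw [pow_mul]; norm_num

/-- frequencies -/
def lam (m : ℕ → ℤ) (k r s : ℕ) : ℤ := m (2 * (4 ^ k + r)) - m (2 * (4 ^ k + s) + 1)

theorem lam_inj (hD : TaskDist) (m : ℕ → ℤ) (hm : Fast m) {k r s k' r' s' : ℕ}
    (hr : r < 4 ^ k) (hr' : r' < 4 ^ k') (h : lam m k r s = lam m k' r' s') :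
    k = k' ∧ r = r' ∧ s = s' := by
  have h1 := hD m hm (2 * (4 ^ k + r)) (2 * (4 ^ k + s) + 1) (2 * (4 ^ k' + r'))
    (2 * (4 ^ k' + s') + 1) (by omega) h
  have hk : k = k' := by
    by_contra hne
    rcases lt_or_gt_of_ne hne with hlt | hgt
    · have : (4 : ℕ) ^ (k + 1) ≤ 4 ^ k' := Nat.pow_le_pow_right (by norm_num) hlt
      rw [pow_succ] at this
      omega
    · have : (4 : ℕ) ^ (k' + 1) ≤ 4 ^ k := Nat.pow_le_pow_right (by norm_num) hgt
      rw [pow_succ] at this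
      omega
  subst hk
  refine ⟨rfl, by omega, by omega⟩

theorem block (m : ℕ → ℤ) (k : ℕ) : ∃ (u : ℕ → ℕ → ℂ) (F : C(UnitAddCircle, ℂ)),
    (∀ r s, ‖u r s‖ = 1) ∧
    F = ∑ r ∈ range (4 ^ k), ∑ s ∈ range (4 ^ k),
      u r s • (fourier (lam m k r s) : C(UnitAddCircle, ℂ)) ∧ ‖F‖ ≤ 8 ^ k := by
  obtain ⟨u, hu, h⟩ := had4 k
  refine ⟨u, _, hu, rfl, ?_⟩
  rw [ContinuousMap.norm_le _ (by positivity)]
  intro t
  have hn1 : ∀ q : ℤ, ‖(fourier q t : ℂ)‖ = 1 := by
    intro q; rw [fourier_apply]; exact Circle.norm_coe _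
  have e : (∑ r ∈ range (4 ^ k), ∑ s ∈ range (4 ^ k),
      u r s • (fourier (lam m k r s) : C(UnitAddCircle, ℂ))) t =
      ∑ r ∈ range (4 ^ k), (fourier (m (2 * (4 ^ k + r))) t : ℂ) *
        ∑ s ∈ range (4 ^ k), u r s * (fourier (-m (2 * (4 ^ k + s) + 1)) t : ℂ) := by
    rw [ContinuousMap.coe_sum, Finset.sum_apply]
    refine Finset.sum_congr rfl fun r _ => ?_
    rw [ContinuousMap.coe_sum, Finset.sum_apply, Finset.mul_sum]
    refine Finset.sum_congr rfl fun s _ => ?_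
    change u r s * (fourier (lam m k r s) t : ℂ) = _
    rw [lam, sub_eq_add_neg, fourier_add]
    ring
  rw [e]
  have h1 : ‖∑ r ∈ range (4 ^ k), (fourier (m (2 * (4 ^ k + r))) t : ℂ) *
        ∑ s ∈ range (4 ^ k), u r s * (fourier (-m (2 * (4 ^ k + s) + 1)) t : ℂ)‖ ≤
      ∑ r ∈ range (4 ^ k),
        ‖∑ s ∈ range (4 ^ k), u r s * (fourier (-m (2 * (4 ^ k + s) + 1)) t : ℂ)‖ := by
    refine (norm_sum_le _ _).trans (Finset.sum_le_sum fun r _ => ?_)
    rw [norm_mul, hn1, one_mul]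
  have h2 : (∑ r ∈ range (4 ^ k),
        ‖∑ s ∈ range (4 ^ k), u r s * (fourier (-m (2 * (4 ^ k + s) + 1)) t : ℂ)‖) ^ 2 ≤
      (8 ^ k) ^ 2 := by
    refine (sq_sum_le_card_mul_sum_sq).trans ?_
    rw [h fun s => (fourier (-m (2 * (4 ^ k + s) + 1)) t : ℂ)]
    simp only [hn1, one_pow, Finset.sum_const, Finset.card_range, nsmul_eq_mul, mul_one]
    push_cast
    rw [← mul_pow, ← mul_pow, ← pow_mul, mul_comm k 2, pow_mul]
    norm_num
  exact h1.trans (abs_le_of_sq_le_sq' h2 (by positivity)).2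

theorem t : Pool.Agent.H681R3.DS.TaskDist → Pool.Agent.H681R3.DS.TaskNS := by
  intro hD m hm hS
  choose u F hu hF hFn using block m
  have h12 : ‖(1 / 12 : ℂ)‖ = 1 / 12 := by norm_num
  have hsum : Summable (fun n : ℕ => ((1 / 12 : ℂ) ^ n) • F n) := by
    have hg : Summable (fun n : ℕ => (2 / 3 : ℝ) ^ n) :=
      summable_geometric_of_lt_one (by norm_num) (by norm_num)
    refine Summable.of_norm_bounded hg (fun n => ?_)
    rw [norm_smul, norm_pow, h12]
    calc (1 / 12 : ℝ) ^ n * ‖F n‖ ≤ (1 / 12 : ℝ) ^ n * 8 ^ n := by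
          gcongr; exact hFn n
      _ = (2 / 3) ^ n := by rw [← mul_pow]; norm_num
  set f := ∑' n : ℕ, ((1 / 12 : ℂ) ^ n) • F n with hf
  have fcF : ∀ (n : ℕ) (q : ℤ), fourierCoeff (F n) q =
      ∑ r ∈ range (4 ^ n), ∑ s ∈ range (4 ^ n),
        u n r s * (if lam m n r s = q then 1 else 0) := by
    intro n q
    rw [← fcL_apply, hF n, map_sum]
    refine Finset.sum_congr rfl fun r _ => ?_
    rw [map_sum]
    refine Finset.sum_congr rfl fun s _ => ?_
    rw [ContinuousLinearMap.map_smul, fcL_apply, fourierCoeff_fourier, smul_eq_mul]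
    congr 1
    by_cases h : lam m n r s = q
    · rw [if_pos h, h]; simp
    · rw [if_neg h, Pi.single_eq_of_ne (Ne.symm h)]
  have hcoef : ∀ q : ℤ, HasSum (fun n : ℕ => (1 / 12 : ℂ) ^ n * fourierCoeff (F n) q)
      (fourierCoeff f q) := by
    intro q
    have h := (fcL q).hasSum hsum.hasSum
    refine HasSum.congr_val (fun n => ?_) rfl h
    rw [ContinuousLinearMap.map_smul, fcL_apply, smul_eq_mul]
  have hfE : f ∈ CE (diffSet m) := by
    intro q hq
    refine (hcoef q).unique ?_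
    refine HasSum.congr_val (fun n => ?_) rfl hasSum_zero
    rw [fcF, Finset.sum_eq_zero, mul_zero]
    intro r _
    rw [Finset.sum_eq_zero]
    intro s _
    rw [if_neg, mul_zero]
    intro he
    exact hq ⟨2 * (4 ^ n + r), 2 * (4 ^ n + s) + 1, by omega, he.symm⟩
  have hsm := hS f hfE
  have hval : ∀ n r s : ℕ, r < 4 ^ n → s < 4 ^ n →
      ‖fourierCoeff f (lam m n r s)‖ = (1 / 12) ^ n := by
    intro n r s hr hs
    have h := hcoef (lam m n r s)
    have h2 : HasSum (fun n' : ℕ => if n' = n then (1 / 12 : ℂ) ^ n * u n r s else 0)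
        ((1 / 12 : ℂ) ^ n * u n r s) := hasSum_ite_eq n _
    have h3 : fourierCoeff f (lam m n r s) = (1 / 12 : ℂ) ^ n * u n r s := by
      refine h.unique ?_
      refine HasSum.congr_val (fun n' => ?_) rfl h2
      rw [fcF]
      by_cases hn : n' = n
      · subst hn
        rw [if_pos rfl]
        congr 1
        rw [Finset.sum_eq_single r, Finset.sum_eq_single s]
        · simp
        · intro b hb hbs
          rw [if_neg, mul_zero]
          intro he
          exact hbs (lam_inj hD m hm hr hr he).2.2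
        · intro hk'
          exact absurd (mem_range.mpr hs) hk'
        · intro b hb hbr
          rw [Finset.sum_eq_zero]
          intro b' _
          rw [if_neg, mul_zero]
          intro he
          exact hbr (lam_inj hD m hm (mem_range.1 hb) hr he).2.1
        · intro hk'
          exact absurd (mem_range.mpr hr) hk'
      · rw [if_neg hn, Finset.sum_eq_zero, mul_zero]
        intro b hb
        rw [Finset.sum_eq_zero]
        intro b' _
        rw [if_neg, mul_zero]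
        intro he
        exact hn (lam_inj hD m hm (mem_range.1 hb) hr he).1
    rw [h3, norm_mul, norm_pow, hu, h12, mul_one]
  -- contradiction with summability
  let φ : (Σ n : ℕ, Fin (4 ^ n) × Fin (4 ^ n)) → ℤ := fun x => lam m x.1 x.2.1 x.2.2
  have hφ : Function.Injective φ := by
    rintro ⟨n, r, s⟩ ⟨n', r', s'⟩ h
    obtain ⟨h1, h2, h3⟩ := lam_inj hD m hm r.2 r'.2 h
    subst h1
    have h2' : r = r' := Fin.ext h2
    have h3' : s = s' := Fin.ext h3
    rw [h2', h3']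
  have hs1 := hsm.comp_injective hφ
  have hs2 := hs1.sigma
  have hs3 := hs2.tendsto_atTop_zero
  have hge : ∀ n : ℕ, (1 : ℝ) ≤ ∑' c : Fin (4 ^ n) × Fin (4 ^ n),
      ((fun k : ℤ => ‖fourierCoeff f k‖) ∘ φ) ⟨n, c⟩ := by
    intro n
    rw [tsum_fintype]
    have : ∀ c : Fin (4 ^ n) × Fin (4 ^ n),
        ((fun k : ℤ => ‖fourierCoeff f k‖) ∘ φ) ⟨n, c⟩ = (1 / 12) ^ n := by
      intro c
      exact hval n c.1 c.2 c.1.2 c.2.2
    rw [Finset.sum_congr rfl fun c _ => this c, Finset.sum_const, Finset.card_univ,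
      Fintype.card_prod, Fintype.card_fin, nsmul_eq_mul]
    push_cast
    rw [← mul_pow, ← mul_pow]
    exact one_le_pow₀ (by norm_num)
  have := ge_of_tendsto' hs3 hge
  norm_num at this

end Pool.Agent.H681R3.DS.TNS
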