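import Mathlib
import Pool.Agent.H681R3.DS.Stmts

/-! TaskFin → TaskOneStep (compactness of `ℕ → Fin K`). -/

set_option autoImplicit false

namespace Pool.Agent.H681R3.DS.TOneStep

open Finset
open Pool.Agent.H681R3.DS

theorem t : Pool.Agent.H681R3.DS.TaskFin → Pool.Agent.H681R3.DS.TaskOneStep := by
  intro hfin ρ hρ
  obtain ⟨K, hK, H⟩ := hfin ρ hρ
  refine ⟨K, hK, fun a C ha hC => ?_⟩
  let G : ℕ → Set (ℕ → Fin K) := fun n => {c | ∀ z w : ℕ → ℂ, (∀ i, ‖z i‖ ≤ 1) →
    (∀ j, ‖w j‖ ≤ 1) →
    ‖∑ i ∈ range n, ∑ j ∈ range n, (if c i = c j then a i j else 0) * z i * w j‖ ≤ ρ * C}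
  have hmono : ∀ n, G (n + 1) ⊆ G n := by
    intro n c hc z w hz hw
    have h := hc (fun i => if i < n then z i else 0) (fun j => if j < n then w j else 0)
      (fun i => by split_ifs <;> simp [hz]) (fun j => by split_ifs <;> simp [hw])
    have he : ∑ i ∈ range (n + 1), ∑ j ∈ range (n + 1), (if c i = c j then a i j else 0) *
        (if i < n then z i else 0) * (if j < n then w j else 0) =
        ∑ i ∈ range n, ∑ j ∈ range n, (if c i = c j then a i j else 0) * z i * w j := by
      rw [sum_range_succ]
      have h1 : ∑ j ∈ range (n + 1), (if c n = c j then a n j else 0) *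
          (if n < n then z n else 0) * (if j < n then w j else 0) = 0 := by
        refine sum_eq_zero fun j _ => ?_
        rw [if_neg (lt_irrefl n)]; ring
      rw [h1, add_zero]
      refine sum_congr rfl fun i hi => ?_
      rw [sum_range_succ, if_neg (lt_irrefl n), mul_zero, add_zero]
      refine sum_congr rfl fun j hj => ?_
      rw [if_pos (mem_range.mp hi), if_pos (mem_range.mp hj)]
    rwa [he] at h
  have hne : ∀ n, (G n).Nonempty := by
    intro n
    obtain ⟨c, hc⟩ := H n a C ha (fun z w hz hw => hC n z w hz hw)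
    exact ⟨c, hc⟩
  have hcl : ∀ n, IsClosed (G n) := by
    intro n
    have : G n = ⋂ (z : ℕ → ℂ) (w : ℕ → ℂ) (_ : ∀ i, ‖z i‖ ≤ 1) (_ : ∀ j, ‖w j‖ ≤ 1),
        {c : ℕ → Fin K | ‖∑ i ∈ range n, ∑ j ∈ range n,
          (if c i = c j then a i j else 0) * z i * w j‖ ≤ ρ * C} := by
      ext c
      simp [G]
    rw [this]
    refine isClosed_iInter fun z => isClosed_iInter fun w => isClosed_iInter fun _ =>
      isClosed_iInter fun _ => isClosed_le ?_ continuous_const
    refine continuous_norm.comp (continuous_finsetSum _ fun i _ =>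
      continuous_finsetSum _ fun j _ => ?_)
    refine Continuous.mul (Continuous.mul ?_ continuous_const) continuous_const
    have h1 : Continuous (fun p : Fin K × Fin K => (if p.1 = p.2 then a i j else (0 : ℂ))) :=
      continuous_of_discreteTopology
    have h2 : Continuous (fun c : ℕ → Fin K => (c i, c j)) :=
      (continuous_apply i).prodMk (continuous_apply j)
    exact h1.comp h2
  obtain ⟨c, hc⟩ := IsCompact.nonempty_iInter_of_sequence_nonempty_isCompact_isClosed G hmono hne
    (hcl 0).isCompact hcl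
  rw [Set.mem_iInter] at hc
  exact ⟨c, fun n z w hz hw => hc n z w hz hw⟩

end Pool.Agent.H681R3.DS.TOneStep
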