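import Pool.Agent.H681R3.DS.Stmts

set_option autoImplicit false

/-! `TaskRect → TaskReal`: from independent colours of rows and columns to equal colours. -/

namespace Pool.Agent.H681R3.DS.TReal
open Finset Pool.Agent.H681R3.DS

variable {n K : ℕ}

/-- rows with `η i` true and columns with `η j` false -/
def restr (η : Fin n → Bool) (A : Fin n → Fin n → ℝ) (i j : Fin n) : ℝ :=
  if η i = true ∧ η j = false then A i j else 0

theorem sg_not (b : Bool) : sg (!b) = -sg b := by cases b <;> simp [sg]

theorem flip_zero (i : Fin n) (g : (Fin n → Bool) → ℝ)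
    (hg : ∀ η, g (Function.update η i (!η i)) = g η) :
    ∑ η : Fin n → Bool, sg (η i) * g η = 0 := by
  have hinv : Function.Involutive (fun η : Fin n → Bool => Function.update η i (!η i)) := by
    intro η
    simp only [Function.update_self, Bool.not_not, Function.update_idem]
    exact Function.update_eq_self i η
  have h := Equiv.sum_comp (Function.Involutive.toPerm _ hinv)
    (fun η : Fin n → Bool => sg (η i) * g η)
  have h2 : ∑ η : Fin n → Bool, (fun η : Fin n → Bool => sg (η i) * g η)
      ((Function.Involutive.toPerm _ hinv) η) =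
      ∑ η : Fin n → Bool, -(sg (η i) * g η) := by
    refine Finset.sum_congr rfl fun η _ => ?_
    have e1 : (Function.Involutive.toPerm _ hinv) η = Function.update η i (!η i) := rfl
    simp only [e1]
    rw [hg η, Function.update_self, sg_not]
    ring
  rw [h2, Finset.sum_neg_distrib] at h
  linarith

theorem restr_eq (η : Fin n → Bool) (A : Fin n → Fin n → ℝ) (i j : Fin n) :
    restr η A i j = A i j * ((1 + sg (η i)) / 2) * ((1 - sg (η j)) / 2) := by
  unfold restr
  cases hi : η i <;> cases hj : η j <;> simp [sg]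

theorem avg_restr (A : Fin n → Fin n → ℝ) (hA : ∀ i, A i i = 0) (i j : Fin n) :
    A i j = 4 / 2 ^ n * ∑ η : Fin n → Bool, restr η A i j := by
  by_cases hij : i = j
  · subst hij
    rw [hA i]
    have : ∀ η : Fin n → Bool, restr η A i i = 0 := by
      intro η
      unfold restr
      rw [hA i]
      simp
    simp [this]
  · have h1 : ∑ η : Fin n → Bool, sg (η i) = 0 := by
      have := flip_zero i (fun _ => (1 : ℝ)) (fun _ => rfl)
      simpa using this
    have h2 : ∑ η : Fin n → Bool, sg (η j) = 0 := by
      have := flip_zero j (fun _ => (1 : ℝ)) (fun _ => rfl)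
      simpa using this
    have h3 : ∑ η : Fin n → Bool, sg (η i) * sg (η j) = 0 := by
      refine flip_zero i (fun η => sg (η j)) ?_
      intro η
      rw [Function.update_of_ne (Ne.symm hij)]
    have h4 : ∑ η : Fin n → Bool, restr η A i j = A i j / 4 * 2 ^ n := by
      have e : ∀ η : Fin n → Bool, restr η A i j =
          A i j / 4 * (1 + sg (η i) - sg (η j) - sg (η i) * sg (η j)) := by
        intro η
        rw [restr_eq]
        ring
      simp only [e]
      rw [← Finset.mul_sum, Finset.sum_sub_distrib, Finset.sum_sub_distrib, Finset.sum_add_distrib,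
        h1, h2, h3]
      simp
    rw [h4]
    field_simp

/-- the restricted form is bounded by the same constant -/
theorem restr_bdd (η : Fin n → Bool) (A : Fin n → Fin n → ℝ) (C : ℝ)
    (hA : ∀ x y : Fin n → Bool, |∑ i, ∑ j, A i j * sg (x i) * sg (y j)| ≤ C)
    (x y : Fin n → Bool) :
    |∑ i, ∑ j, restr η A i j * sg (x i) * sg (y j)| ≤ C := by
  set x' : Fin n → Bool := fun i => if η i then x i else !x i with hx'
  set y' : Fin n → Bool := fun j => if η j then !y j else y j with hy'
  have e : ∑ i, ∑ j, restr η A i j * sg (x i) * sg (y j) =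
      ((∑ i, ∑ j, A i j * sg (x i) * sg (y j)) + (∑ i, ∑ j, A i j * sg (x' i) * sg (y j)) +
      (∑ i, ∑ j, A i j * sg (x i) * sg (y' j)) + (∑ i, ∑ j, A i j * sg (x' i) * sg (y' j))) / 4 := by
    rw [← Finset.sum_add_distrib, ← Finset.sum_add_distrib, ← Finset.sum_add_distrib,
      Finset.sum_div]
    refine Finset.sum_congr rfl fun i _ => ?_
    rw [← Finset.sum_add_distrib, ← Finset.sum_add_distrib, ← Finset.sum_add_distrib,
      Finset.sum_div]
    refine Finset.sum_congr rfl fun j _ => ?_
    unfold restr
    simp only [hx', hy']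
    cases hi : η i <;> cases hj : η j <;> simp [sg_not] <;> ring
  rw [e]
  have a1 := abs_le.1 (hA x y)
  have a2 := abs_le.1 (hA x' y)
  have a3 := abs_le.1 (hA x y')
  have a4 := abs_le.1 (hA x' y')
  rw [abs_le]
  constructor <;> linarith [a1.1, a1.2, a2.1, a2.2, a3.1, a3.2, a4.1, a4.2]

/-- exchanging the colours outside `η` -/
def mix (η : Fin n → Bool) (c d : Fin n → Fin K) : Fin n → Fin K :=
  fun i => if η i then c i else d i

theorem mix_invol (η : Fin n → Bool) :
    Function.Involutive (fun p : (Fin n → Fin K) × (Fin n → Fin K) =>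
      (mix η p.1 p.2, mix η p.2 p.1)) := by
  rintro ⟨c, d⟩
  simp only [Prod.mk.injEq]
  constructor
  · funext i
    unfold mix
    cases η i <;> simp
  · funext i
    unfold mix
    cases η i <;> simp

theorem t (h : TaskRect) : TaskReal := by
  intro n K A C hK hdiag hA
  set H : (Fin n → Bool) → (Fin n → Fin K) → ℝ := fun η e =>
    univ.sup' univ_nonempty (fun q : (Fin n → Bool) × (Fin n → Bool) =>
      ∑ i, ∑ j, (if e i = e j then restr η A i j else 0) * sg (q.1 i) * sg (q.2 j)) with hH
  have step1 : ∀ c : Fin n → Fin K,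
      univ.sup' univ_nonempty (fun q : (Fin n → Bool) × (Fin n → Bool) =>
        ∑ i, ∑ j, (if c i = c j then A i j else 0) * sg (q.1 i) * sg (q.2 j)) ≤
      4 / 2 ^ n * ∑ η : Fin n → Bool, H η c := by
    intro c
    refine Finset.sup'_le _ _ fun q _ => ?_
    have e : ∑ i, ∑ j, (if c i = c j then A i j else 0) * sg (q.1 i) * sg (q.2 j) =
        4 / 2 ^ n * ∑ η : Fin n → Bool,
          ∑ i, ∑ j, (if c i = c j then restr η A i j else 0) * sg (q.1 i) * sg (q.2 j) := by
      rw [Finset.sum_comm (s := (univ : Finset (Fin n → Bool)))]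
      rw [Finset.mul_sum]
      refine Finset.sum_congr rfl fun i _ => ?_
      rw [Finset.sum_comm (s := (univ : Finset (Fin n → Bool)))]
      rw [Finset.mul_sum]
      refine Finset.sum_congr rfl fun j _ => ?_
      by_cases hc : c i = c j
      · simp only [hc, if_true]
        rw [← Finset.sum_mul, ← Finset.sum_mul, ← mul_assoc, ← mul_assoc, ← avg_restr A hdiag i j]
      · simp [hc]
    rw [e]
    refine mul_le_mul_of_nonneg_left (Finset.sum_le_sum fun η _ => ?_) (by positivity)
    exact Finset.le_sup' (fun q : (Fin n → Bool) × (Fin n → Bool) =>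
      ∑ i, ∑ j, (if c i = c j then restr η A i j else 0) * sg (q.1 i) * sg (q.2 j))
      (Finset.mem_univ q)
  have hKpos : (0 : ℝ) < K := by exact_mod_cast hK
  have hKn : (0 : ℝ) < (K : ℝ) ^ n := by positivity
  have step2 : ∀ η : Fin n → Bool, ∑ c : Fin n → Fin K, H η c ≤
      6 * C / Real.sqrt K * (K : ℝ) ^ n := by
    intro η
    have h1 := h n K (restr η A) C hK (restr_bdd η A C hA)
    have h2 : ∑ c : Fin n → Fin K, ∑ d : Fin n → Fin K,
        univ.sup' univ_nonempty (fun q : (Fin n → Bool) × (Fin n → Bool) =>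
          ∑ i, ∑ j, (if c i = d j then restr η A i j else 0) * sg (q.1 i) * sg (q.2 j)) =
        ∑ c : Fin n → Fin K, ∑ d : Fin n → Fin K, H η (mix η c d) := by
      refine Finset.sum_congr rfl fun c _ => Finset.sum_congr rfl fun d _ => ?_
      rw [hH]
      simp only
      congr 1
      funext q
      refine Finset.sum_congr rfl fun i _ => Finset.sum_congr rfl fun j _ => ?_
      unfold restr mix
      cases hi : η i <;> cases hj : η j <;> simp
    have h3 : ∑ c : Fin n → Fin K, ∑ d : Fin n → Fin K, H η (mix η c d) =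
        (K : ℝ) ^ n * ∑ c : Fin n → Fin K, H η c := by
      rw [← Fintype.sum_prod_type' (f := fun c d => H η (mix η c d))]
      have h4 := Equiv.sum_comp (Function.Involutive.toPerm _ (mix_invol (K := K) η))
        (fun p : (Fin n → Fin K) × (Fin n → Fin K) => H η p.1)
      have h5 : ∑ p : (Fin n → Fin K) × (Fin n → Fin K), H η (mix η p.1 p.2) =
          ∑ p : (Fin n → Fin K) × (Fin n → Fin K),
            (fun p : (Fin n → Fin K) × (Fin n → Fin K) => H η p.1)
              ((Function.Involutive.toPerm _ (mix_invol (K := K) η)) p) :=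
        Finset.sum_congr rfl fun p _ => rfl
      rw [h5, h4, Fintype.sum_prod_type]
      simp only [Finset.sum_const, Finset.card_univ, Fintype.card_fun, Fintype.card_fin, nsmul_eq_mul]
      rw [Finset.mul_sum]
      push_cast
      rfl
    rw [h2, h3] at h1
    have h6 : (K : ℝ) ^ n * ∑ c : Fin n → Fin K, H η c ≤
        (K : ℝ) ^ n * (6 * C / Real.sqrt K * (K : ℝ) ^ n) := by
      refine h1.trans (le_of_eq ?_)
      ring
    exact le_of_mul_le_mul_left h6 hKn
  calc ∑ c : Fin n → Fin K,
      univ.sup' univ_nonempty (fun q : (Fin n → Bool) × (Fin n → Bool) =>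
        ∑ i, ∑ j, (if c i = c j then A i j else 0) * sg (q.1 i) * sg (q.2 j))
      ≤ ∑ c : Fin n → Fin K, 4 / 2 ^ n * ∑ η : Fin n → Bool, H η c :=
        Finset.sum_le_sum fun c _ => step1 c
    _ = 4 / 2 ^ n * ∑ η : Fin n → Bool, ∑ c : Fin n → Fin K, H η c := by
        rw [← Finset.mul_sum, Finset.sum_comm]
    _ ≤ 4 / 2 ^ n * ∑ _η : Fin n → Bool, 6 * C / Real.sqrt K * (K : ℝ) ^ n := by
        refine mul_le_mul_of_nonneg_left (Finset.sum_le_sum fun η _ => step2 η) (by positivity)
    _ = 24 * C / Real.sqrt K * (K : ℝ) ^ n := by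
        simp only [Finset.sum_const, Finset.card_univ, Fintype.card_fun, Fintype.card_bool,
          Fintype.card_fin, nsmul_eq_mul]
        push_cast
        field_simp
        ring

end Pool.Agent.H681R3.DS.TReal
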