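import Pool.Agent.H681R3.DS.Stmts

set_option autoImplicit false

/-!
# Project H681-DS, TaskRect (helper858)
-/

namespace Pool.Agent.H681R3.DS.TRect

open Finset
open Pool.Agent.H681R3.DS

theorem sg_mul (a b : Bool) : sg a * sg b = sg (a == b) := by
  cases a <;> cases b <;> simp [sg]

theorem sg_sq (a : Bool) : sg a * sg a = 1 := by
  cases a <;> simp [sg]

theorem sg_not (a : Bool) : sg (!a) = - sg a := by
  cases a <;> simp [sg]

theorem sg_mul_le (b : Bool) (x : ℝ) : sg b * x ≤ |x| := by
  cases b
  · simp only [sg, Bool.false_eq_true, if_false]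
    have := neg_le_abs x
    linarith
  · simp only [sg, if_true]
    have := le_abs_self x
    linarith

theorem exists_sg (x : ℝ) : ∃ b : Bool, |x| = sg b * x := by
  rcases le_total 0 x with h | h
  · exact ⟨true, by rw [abs_of_nonneg h]; simp [sg]⟩
  · exact ⟨false, by rw [abs_of_nonpos h]; simp [sg]⟩

theorem le_of_sq' {a b : ℝ} (hb : 0 ≤ b) (h : a ^ 2 ≤ b ^ 2) : a ≤ b :=
  le_trans (le_abs_self a) (abs_le_of_sq_le_sq h hb)

/-- the rows -/
theorem rowBound {n : ℕ} {A : Fin n → Fin n → ℝ} {C : ℝ}
    (hA : ∀ x y : Fin n → Bool, |∑ i, ∑ j, A i j * sg (x i) * sg (y j)| ≤ C)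
    (y : Fin n → Bool) : ∑ i, |∑ j, A i j * sg (y j)| ≤ C := by
  choose x hx using fun i => exists_sg (∑ j, A i j * sg (y j))
  have h : ∑ i, |∑ j, A i j * sg (y j)| = ∑ i, ∑ j, A i j * sg (x i) * sg (y j) := by
    refine Finset.sum_congr rfl fun i _ => ?_
    rw [hx i, Finset.mul_sum]
    refine Finset.sum_congr rfl fun j _ => ?_
    ring
  rw [h]
  exact le_trans (le_abs_self _) (hA x y)

/-- the columns -/
theorem colBound {n : ℕ} {A : Fin n → Fin n → ℝ} {C : ℝ}
    (hA : ∀ x y : Fin n → Bool, |∑ i, ∑ j, A i j * sg (x i) * sg (y j)| ≤ C)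
    (x : Fin n → Bool) : ∑ j, |∑ i, sg (x i) * A i j| ≤ C := by
  choose y hy using fun j => exists_sg (∑ i, sg (x i) * A i j)
  have h : ∑ j, |∑ i, sg (x i) * A i j| = ∑ i, ∑ j, A i j * sg (x i) * sg (y j) := by
    rw [Finset.sum_comm]
    refine Finset.sum_congr rfl fun j _ => ?_
    rw [hy j, Finset.mul_sum]
    refine Finset.sum_congr rfl fun i _ => ?_
    ring
  rw [h]
  exact le_trans (le_abs_self _) (hA x y)

/-- orthogonality of the coordinates -/
theorem ortho {n : ℕ} (i k : Fin n) (hik : i ≠ k) :
    ∑ s : Fin n → Bool, sg (s i) * sg (s k) = 0 := by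
  let e : (Fin n → Bool) ≃ (Fin n → Bool) :=
    Function.Involutive.toPerm (fun s => Function.update s i (!(s i))) (by
      intro s
      funext j
      by_cases hj : j = i
      · subst hj
        simp
      · simp [Function.update_of_ne hj])
  have h1 : ∑ s : Fin n → Bool, sg (e s i) * sg (e s k) =
      ∑ s : Fin n → Bool, sg (s i) * sg (s k) :=
    Equiv.sum_comp e fun s => sg (s i) * sg (s k)
  have h2 : ∀ s : Fin n → Bool, sg (e s i) * sg (e s k) = - (sg (s i) * sg (s k)) := by
    intro s
    have e1 : e s i = !(s i) := by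
      show Function.update s i (!(s i)) i = _
      simp
    have e2 : e s k = s k := by
      show Function.update s i (!(s i)) k = _
      rw [Function.update_of_ne (Ne.symm hik)]
    rw [e1, e2, sg_not]
    ring
  rw [Finset.sum_congr rfl fun s _ => h2 s, Finset.sum_neg_distrib] at h1
  linarith

/-- second moment -/
theorem moment {n : ℕ} (u : Fin n → ℝ) :
    ∑ s : Fin n → Bool, (∑ i, sg (s i) * u i) ^ 2 = 2 ^ n * ∑ i, u i ^ 2 := by
  have h1 : ∀ s : Fin n → Bool, (∑ i, sg (s i) * u i) ^ 2 =
      ∑ i, ∑ k, (sg (s i) * sg (s k)) * (u i * u k) := by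
    intro s
    rw [sq, Finset.sum_mul_sum]
    refine Finset.sum_congr rfl fun i _ => Finset.sum_congr rfl fun k _ => ?_
    ring
  rw [Finset.sum_congr rfl fun s _ => h1 s, Finset.sum_comm, Finset.mul_sum]
  refine Finset.sum_congr rfl fun i _ => ?_
  rw [Finset.sum_comm, Finset.sum_eq_single i]
  · rw [← Finset.sum_mul, Finset.sum_congr rfl fun (s : Fin n → Bool) _ => sg_sq (s i)]
    rw [Finset.sum_const, Finset.card_univ, Fintype.card_fun, Fintype.card_bool, Fintype.card_fin]
    simp only [nsmul_eq_mul, mul_one]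
    push_cast
    ring
  · intro k _ hk
    rw [← Finset.sum_mul, ortho i k (Ne.symm hk), zero_mul]
  · intro h
    exact absurd (Finset.mem_univ i) h

/-- first moment -/
theorem firstMoment {n : ℕ} (u : Fin n → ℝ) :
    ∑ s : Fin n → Bool, |∑ i, sg (s i) * u i| ≤ 2 ^ n * Real.sqrt (∑ i, u i ^ 2) := by
  have h0 : 0 ≤ ∑ i, u i ^ 2 := Finset.sum_nonneg fun i _ => sq_nonneg _
  refine le_of_sq' (by positivity) ?_
  have h := sq_sum_le_card_mul_sum_sq (s := (univ : Finset (Fin n → Bool)))
    (f := fun s => |∑ i, sg (s i) * u i|)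
  rw [Finset.card_univ, Fintype.card_fun, Fintype.card_bool, Fintype.card_fin] at h
  refine h.trans (le_of_eq ?_)
  simp only [sq_abs]
  rw [moment, mul_pow, Real.sq_sqrt h0]
  push_cast
  ring

/-- counting -/
theorem count {n K : ℕ} (hK : 1 ≤ K) (i : Fin n) (l : Fin K) :
    ∑ c : Fin n → Fin K, (if c i = l then (1 : ℝ) else 0) = (K : ℝ) ^ n / K := by
  have hKpos : (0 : ℝ) < K := by exact_mod_cast hK
  have hsym : ∀ l l' : Fin K, ∑ c : Fin n → Fin K, (if c i = l then (1 : ℝ) else 0) =
      ∑ c : Fin n → Fin K, (if c i = l' then (1 : ℝ) else 0) := by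
    intro l l'
    let e : (Fin n → Fin K) ≃ (Fin n → Fin K) :=
      Equiv.piCongrRight fun _ => Equiv.swap l l'
    rw [← Equiv.sum_comp e fun c => (if c i = l' then (1 : ℝ) else 0)]
    refine Finset.sum_congr rfl fun c _ => ?_
    have h1 : e c i = Equiv.swap l l' (c i) := rfl
    rw [h1]
    by_cases h : c i = l
    · rw [if_pos h, h, Equiv.swap_apply_left, if_pos rfl]
    · rw [if_neg h, if_neg]
      intro h2
      apply h
      have h3 := congrArg (Equiv.swap l l') h2
      rw [Equiv.swap_apply_self, Equiv.swap_apply_right] at h3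
      exact h3
  have htot : ∑ l' : Fin K, ∑ c : Fin n → Fin K, (if c i = l' then (1 : ℝ) else 0) =
      (K : ℝ) ^ n := by
    rw [Finset.sum_comm]
    have : ∀ c : Fin n → Fin K, ∑ l' : Fin K, (if c i = l' then (1 : ℝ) else 0) = 1 := by
      intro c
      rw [Finset.sum_ite_eq univ (c i) (fun _ => (1 : ℝ)), if_pos (Finset.mem_univ _)]
    rw [Finset.sum_congr rfl fun c _ => this c, Finset.sum_const, Finset.card_univ,
      Fintype.card_fun, Fintype.card_fin, Fintype.card_fin]
    simp
  rw [Finset.sum_congr rfl fun l' _ => hsym l' l, Finset.sum_const, Finset.card_univ,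
    Fintype.card_fin, nsmul_eq_mul] at htot
  rw [eq_div_iff hKpos.ne', mul_comm]
  exact htot

theorem t (hK : TaskKhin) (hC : TaskContr) (hS : TaskSym) : TaskRect := by
  intro n K A C hK1 hA
  have hKpos : (0 : ℝ) < K := by exact_mod_cast hK1
  have hsK : 0 < Real.sqrt K := Real.sqrt_pos.2 hKpos
  have hsKK : Real.sqrt K * Real.sqrt K = K := Real.mul_self_sqrt hKpos.le
  have hC0 : 0 ≤ C := le_trans (abs_nonneg _) (hA (fun _ => true) (fun _ => true))
  have hKn : (0 : ℝ) < (K : ℝ) ^ n := by positivity
  have main : ∀ d : Fin n → Fin K, ∑ c : Fin n → Fin K,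
      univ.sup' univ_nonempty (fun q : (Fin n → Bool) × (Fin n → Bool) =>
        ∑ i, ∑ j, (if c i = d j then A i j else 0) * sg (q.1 i) * sg (q.2 j)) ≤
      6 * C / Real.sqrt K * (K : ℝ) ^ n := by
    intro d
    obtain ⟨v, hv⟩ : ∃ v : Fin n → Fin K → (Fin n → Bool) → ℝ,
        ∀ i l y, v i l y = ∑ j, (if l = d j then A i j else 0) * sg (y j) :=
      ⟨_, fun _ _ _ => rfl⟩
    have h1 : ∀ c : Fin n → Fin K,
        univ.sup' univ_nonempty (fun q : (Fin n → Bool) × (Fin n → Bool) =>
          ∑ i, ∑ j, (if c i = d j then A i j else 0) * sg (q.1 i) * sg (q.2 j)) ≤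
        univ.sup' univ_nonempty (fun y : Fin n → Bool => ∑ i, |v i (c i) y|) := by
      intro c
      refine Finset.sup'_le _ _ fun q _ => ?_
      refine le_trans ?_ (Finset.le_sup' (fun y : Fin n → Bool => ∑ i, |v i (c i) y|)
        (Finset.mem_univ q.2))
      refine Finset.sum_le_sum fun i _ => ?_
      have h : ∑ j, (if c i = d j then A i j else 0) * sg (q.1 i) * sg (q.2 j) =
          sg (q.1 i) * v i (c i) q.2 := by
        rw [hv, Finset.mul_sum]
        refine Finset.sum_congr rfl fun j _ => ?_
        ring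
      rw [h]
      exact sg_mul_le _ _
    have h2 := hS n K (Fin n → Bool) (fun i l y => |v i l y|) hK1
    -- the first term
    have h3 : univ.sup' univ_nonempty (fun y : Fin n → Bool => ∑ i, ∑ l, |v i l y|) ≤
        2 * Real.sqrt K * C := by
      refine Finset.sup'_le _ _ fun y _ => ?_
      have hrow : ∀ i, ∑ l, |v i l y| ≤ Real.sqrt K * (2 / 2 ^ K *
          ∑ s : Fin K → Bool, |∑ l, sg (s l) * v i l y|) := by
        intro i
        have h0 : 0 ≤ ∑ l, v i l y ^ 2 := Finset.sum_nonneg fun l _ => sq_nonneg _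
        have e1 : ∑ l, |v i l y| ≤ Real.sqrt K * Real.sqrt (∑ l, v i l y ^ 2) := by
          refine le_of_sq' (by positivity) ?_
          have h := sq_sum_le_card_mul_sum_sq (s := (univ : Finset (Fin K)))
            (f := fun l => |v i l y|)
          rw [Finset.card_univ, Fintype.card_fin] at h
          refine h.trans (le_of_eq ?_)
          simp only [sq_abs]
          rw [mul_pow, Real.sq_sqrt h0, Real.sq_sqrt hKpos.le]
        have e2 := hK (Fin K) (fun l => v i l y)
        rw [Fintype.card_fin] at e2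
        have e3 : Real.sqrt (∑ l, v i l y ^ 2) ≤ 2 / 2 ^ K *
            ∑ s : Fin K → Bool, |∑ l, sg (s l) * v i l y| := by
          rw [div_mul_eq_mul_div, le_div_iff₀ (by positivity)]
          exact e2
        exact e1.trans (mul_le_mul_of_nonneg_left e3 hsK.le)
      refine (Finset.sum_le_sum fun i _ => hrow i).trans ?_
      rw [← Finset.mul_sum, ← Finset.mul_sum, Finset.sum_comm]
      have hs : ∀ s : Fin K → Bool, ∑ i, |∑ l, sg (s l) * v i l y| ≤ C := by
        intro s
        have e : ∀ i, ∑ l, sg (s l) * v i l y = ∑ j, A i j * sg (s (d j) == y j) := by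
          intro i
          have e1 : ∀ l, sg (s l) * v i l y =
              ∑ j, (if l = d j then sg (s l) * (A i j * sg (y j)) else 0) := by
            intro l
            rw [hv, Finset.mul_sum]
            refine Finset.sum_congr rfl fun j _ => ?_
            split_ifs <;> ring
          rw [Finset.sum_congr rfl fun l _ => e1 l, Finset.sum_comm]
          refine Finset.sum_congr rfl fun j _ => ?_
          rw [Finset.sum_ite_eq' univ (d j) fun l => sg (s l) * (A i j * sg (y j)),
            if_pos (Finset.mem_univ _), ← sg_mul]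
          ring
        rw [Finset.sum_congr rfl fun i _ => by rw [e i]]
        exact rowBound hA fun j => s (d j) == y j
      have hsum : ∑ s : Fin K → Bool, ∑ i, |∑ l, sg (s l) * v i l y| ≤ 2 ^ K * C := by
        refine (Finset.sum_le_sum fun s _ => hs s).trans (le_of_eq ?_)
        rw [Finset.sum_const, Finset.card_univ, Fintype.card_fun, Fintype.card_bool,
          Fintype.card_fin, nsmul_eq_mul]
        push_cast
        ring
      have h2K : (0 : ℝ) < 2 ^ K := by positivity
      calc Real.sqrt K * (2 / 2 ^ K * ∑ s : Fin K → Bool, ∑ i, |∑ l, sg (s l) * v i l y|)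
          ≤ Real.sqrt K * (2 / 2 ^ K * (2 ^ K * C)) := by gcongr
        _ = 2 * Real.sqrt K * C := by
            field_simp
    -- the second term
    have hcol : ∑ j, Real.sqrt (∑ i, A i j ^ 2) ≤ 2 * C := by
      have h2n : (0 : ℝ) < 2 ^ n := by positivity
      have e1 : ∀ j, Real.sqrt (∑ i, A i j ^ 2) * 2 ^ n ≤
          2 * ∑ s : Fin n → Bool, |∑ i, sg (s i) * A i j| := by
        intro j
        have := hK (Fin n) (fun i => A i j)
        rw [Fintype.card_fin] at this
        exact this
      have e2 : (∑ j, Real.sqrt (∑ i, A i j ^ 2)) * 2 ^ n ≤ 2 * C * 2 ^ n := by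
        rw [Finset.sum_mul]
        refine (Finset.sum_le_sum fun j _ => e1 j).trans ?_
        rw [← Finset.mul_sum, Finset.sum_comm]
        have e3 : ∑ s : Fin n → Bool, ∑ j, |∑ i, sg (s i) * A i j| ≤ 2 ^ n * C := by
          refine (Finset.sum_le_sum fun s _ => colBound hA s).trans (le_of_eq ?_)
          rw [Finset.sum_const, Finset.card_univ, Fintype.card_fun, Fintype.card_bool,
            Fintype.card_fin, nsmul_eq_mul]
          push_cast
          ring
        linarith
      exact le_of_mul_le_mul_right e2 h2n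
    have h4 : ∑ c : Fin n → Fin K, ∑ s : Fin n → Bool,
        univ.sup' univ_nonempty (fun y : Fin n → Bool => ∑ i, sg (s i) * |v i (c i) y|) ≤
        2 ^ n * ((K : ℝ) ^ n / Real.sqrt K) * (2 * C) := by
      have f1 : ∀ c : Fin n → Fin K, ∑ s : Fin n → Bool,
          univ.sup' univ_nonempty (fun y : Fin n → Bool => ∑ i, sg (s i) * |v i (c i) y|) ≤
          ∑ j, 2 ^ n * Real.sqrt (∑ i, (if c i = d j then A i j else 0) ^ 2) := by
        intro c
        refine (hC (Fin n) (Fin n → Bool) (fun y i => v i (c i) y)).trans ?_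
        have f2 : ∀ s : Fin n → Bool,
            univ.sup' univ_nonempty (fun y : Fin n → Bool => ∑ i, sg (s i) * v i (c i) y) ≤
            ∑ j, |∑ i, sg (s i) * (if c i = d j then A i j else 0)| := by
          intro s
          refine Finset.sup'_le _ _ fun y _ => ?_
          have f3 : ∑ i, sg (s i) * v i (c i) y =
              ∑ j, sg (y j) * ∑ i, sg (s i) * (if c i = d j then A i j else 0) := by
            have f4 : ∀ i, sg (s i) * v i (c i) y =
                ∑ j, sg (y j) * (sg (s i) * (if c i = d j then A i j else 0)) := by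
              intro i
              rw [hv, Finset.mul_sum]
              refine Finset.sum_congr rfl fun j _ => ?_
              ring
            rw [Finset.sum_congr rfl fun i _ => f4 i, Finset.sum_comm]
            refine Finset.sum_congr rfl fun j _ => ?_
            rw [Finset.mul_sum]
          rw [f3]
          exact Finset.sum_le_sum fun j _ => sg_mul_le _ _
        refine (Finset.sum_le_sum fun s _ => f2 s).trans ?_
        rw [Finset.sum_comm]
        exact Finset.sum_le_sum fun j _ => firstMoment _
      refine (Finset.sum_le_sum fun c _ => f1 c).trans ?_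
      rw [Finset.sum_comm]
      have f5 : ∀ j, ∑ c : Fin n → Fin K,
          2 ^ n * Real.sqrt (∑ i, (if c i = d j then A i j else 0) ^ 2) ≤
          2 ^ n * ((K : ℝ) ^ n / Real.sqrt K) * Real.sqrt (∑ i, A i j ^ 2) := by
        intro j
        rw [← Finset.mul_sum, mul_assoc]
        refine mul_le_mul_of_nonneg_left ?_ (by positivity)
        have g0 : ∀ c : Fin n → Fin K, 0 ≤ ∑ i, (if c i = d j then A i j else 0) ^ 2 :=
          fun c => Finset.sum_nonneg fun i _ => sq_nonneg _
        have g0' : 0 ≤ ∑ i, A i j ^ 2 := Finset.sum_nonneg fun i _ => sq_nonneg _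
        refine le_of_sq' (by positivity) ?_
        have h := sq_sum_le_card_mul_sum_sq (s := (univ : Finset (Fin n → Fin K)))
          (f := fun c => Real.sqrt (∑ i, (if c i = d j then A i j else 0) ^ 2))
        rw [Finset.card_univ, Fintype.card_fun, Fintype.card_fin, Fintype.card_fin] at h
        refine h.trans (le_of_eq ?_)
        have g1 : ∑ c : Fin n → Fin K,
            Real.sqrt (∑ i, (if c i = d j then A i j else 0) ^ 2) ^ 2 =
            (K : ℝ) ^ n / K * ∑ i, A i j ^ 2 := by
          rw [Finset.sum_congr rfl fun c _ => Real.sq_sqrt (g0 c), Finset.sum_comm,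
            Finset.mul_sum]
          refine Finset.sum_congr rfl fun i _ => ?_
          rw [← count hK1 i (d j), Finset.sum_mul]
          refine Finset.sum_congr rfl fun c _ => ?_
          split_ifs <;> ring
        rw [g1, mul_pow, div_pow, Real.sq_sqrt g0', Real.sq_sqrt hKpos.le]
        push_cast
        ring
      refine (Finset.sum_le_sum fun j _ => f5 j).trans ?_
      rw [← Finset.mul_sum]
      exact mul_le_mul_of_nonneg_left hcol (by positivity)
    -- together
    have h2n : (0 : ℝ) < 2 ^ n := by positivity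
    calc ∑ c : Fin n → Fin K,
        univ.sup' univ_nonempty (fun q : (Fin n → Bool) × (Fin n → Bool) =>
          ∑ i, ∑ j, (if c i = d j then A i j else 0) * sg (q.1 i) * sg (q.2 j))
        ≤ ∑ c : Fin n → Fin K,
          univ.sup' univ_nonempty (fun y : Fin n → Bool => ∑ i, |v i (c i) y|) :=
          Finset.sum_le_sum fun c _ => h1 c
      _ ≤ (K : ℝ) ^ n / K * univ.sup' univ_nonempty (fun y : Fin n → Bool =>
            ∑ i, ∑ l, |v i l y|) +
          2 / 2 ^ n * ∑ c : Fin n → Fin K, ∑ s : Fin n → Bool,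
            univ.sup' univ_nonempty (fun y : Fin n → Bool => ∑ i, sg (s i) * |v i (c i) y|) :=
          h2
      _ ≤ (K : ℝ) ^ n / K * (2 * Real.sqrt K * C) +
          2 / 2 ^ n * (2 ^ n * ((K : ℝ) ^ n / Real.sqrt K) * (2 * C)) := by
          gcongr
      _ = 6 * C / Real.sqrt K * (K : ℝ) ^ n := by
          have e1 : (K : ℝ) ^ n / K * (2 * Real.sqrt K * C) =
              2 * C / Real.sqrt K * (K : ℝ) ^ n := by
            rw [div_mul_eq_mul_div, div_mul_eq_mul_div, div_eq_div_iff hKpos.ne' hsK.ne']
            calc (K : ℝ) ^ n * (2 * Real.sqrt K * C) * Real.sqrt K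
                = (K : ℝ) ^ n * 2 * C * (Real.sqrt K * Real.sqrt K) := by ring
              _ = 2 * C * (K : ℝ) ^ n * K := by rw [hsKK]; ring
          have e2 : 2 / 2 ^ n * (2 ^ n * ((K : ℝ) ^ n / Real.sqrt K) * (2 * C)) =
              4 * C / Real.sqrt K * (K : ℝ) ^ n := by
            field_simp
            ring
          rw [e1, e2]
          ring
  rw [Finset.sum_comm]
  refine (Finset.sum_le_sum fun d _ => main d).trans (le_of_eq ?_)
  rw [Finset.sum_const, Finset.card_univ, Fintype.card_fun, Fintype.card_fin, Fintype.card_fin,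
    nsmul_eq_mul]
  push_cast
  ring

end Pool.Agent.H681R3.DS.TRect
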