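import Pool.Agent.H681R3.DS.Stmts

set_option autoImplicit false

/-! Bohr neighbourhoods contain the difference set of a subsequence. -/

namespace Pool.Agent.H681R3.DS.TSub

open Pool.Agent.Results.MP_eb9c50_an.SidonNearZero
open Filter Topology

theorem fast_pos {m : ℕ → ℤ} (hm : Fast m) : ∀ i, 0 < m i := by
  intro i
  induction i with
  | zero => exact hm.1
  | succ i ih =>
    refine lt_of_lt_of_le ?_ (hm.2 i)
    positivity

theorem fast_step {m : ℕ → ℤ} (hm : Fast m) (i : ℕ) : m i ≤ m (i + 1) := by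
  refine le_trans ?_ (hm.2 i)
  have h1 := fast_pos hm i
  have h2 : (1 : ℤ) ≤ 200 * 40 ^ (i + 1) := by
    have h3 : (1 : ℤ) ≤ 40 ^ (i + 1) := one_le_pow₀ (by norm_num)
    linarith
  nlinarith

theorem fast_mono {m : ℕ → ℤ} (hm : Fast m) : Monotone m :=
  monotone_nat_of_le_succ (fast_step hm)

theorem fast_sub {m : ℕ → ℤ} (hm : Fast m) {ψ : ℕ → ℕ} (hψ : StrictMono ψ) :
    Fast (fun k => m (ψ k)) := by
  refine ⟨fast_pos hm _, fun k => ?_⟩
  have h1 : k ≤ ψ k := hψ.id_le k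
  have h2 : ψ k + 1 ≤ ψ (k + 1) := hψ (Nat.lt_succ_self k)
  have h3 : (40 : ℤ) ^ (k + 1) ≤ 40 ^ (ψ k + 1) :=
    pow_le_pow_right₀ (by norm_num) (by omega)
  have h4 := fast_pos hm (ψ k)
  calc 200 * 40 ^ (k + 1) * m (ψ k) ≤ 200 * 40 ^ (ψ k + 1) * m (ψ k) := by
        apply mul_le_mul_of_nonneg_right _ h4.le
        linarith
    _ ≤ m (ψ k + 1) := hm.2 (ψ k)
    _ ≤ m (ψ (k + 1)) := fast_mono hm h2

theorem t : TaskSub := by
  intro m hm S δ hδ
  obtain ⟨a, φ, hφ, hlim⟩ := CompactSpace.tendsto_subseq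
    (fun (n : ℕ) (a : S) => m n • (a : UnitAddCircle))
  have hc : CauchySeq ((fun (n : ℕ) (a : S) => m n • (a : UnitAddCircle)) ∘ φ) :=
    hlim.cauchySeq
  obtain ⟨N, hN⟩ := Metric.cauchySeq_iff.1 hc δ hδ
  have hψ : StrictMono (fun k => φ (N + k)) := fun i j hij => hφ (by omega)
  refine ⟨fun k => m (φ (N + k)), fast_sub hm hψ, ?_⟩
  rintro k ⟨i, j, hij, rfl⟩
  refine ⟨⟨φ (N + i), φ (N + j), fun h => hij (hψ.injective h), rfl⟩, ?_⟩
  intro x hx
  have h1 := hN (N + i) (by omega) (N + j) (by omega)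
  have h2 := (dist_pi_lt_iff hδ).1 h1 ⟨x, hx⟩
  rw [dist_eq_norm] at h2
  rw [sub_smul]
  exact h2

end Pool.Agent.H681R3.DS.TSub
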