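import Pool.Agent.H681R3.DS.Stmts

set_option autoImplicit false

namespace Pool.Agent.H681R3.DS.TSym

open Finset Pool.Agent.H681R3.DS

section
variable {τ : Type} [Fintype τ] [Nonempty τ]

/-- the supremum of a function on a finite nonempty type -/
noncomputable def S (h : τ → ℝ) : ℝ := univ.sup' univ_nonempty h

theorem le_S (h : τ → ℝ) (t : τ) : h t ≤ S h := Finset.le_sup' h (mem_univ t)

theorem S_le {h : τ → ℝ} {a : ℝ} (H : ∀ t, h t ≤ a) : S h ≤ a :=
  Finset.sup'_le _ _ fun t _ => H t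

theorem S_add (h k : τ → ℝ) : S (fun t => h t + k t) ≤ S h + S k :=
  S_le fun t => add_le_add (le_S h t) (le_S k t)

theorem S_sum {ι : Type} (s : Finset ι) (h : ι → τ → ℝ) :
    S (fun t => ∑ i ∈ s, h i t) ≤ ∑ i ∈ s, S (h i) :=
  S_le fun t => Finset.sum_le_sum fun i _ => le_S (h i) t

theorem S_mul {c : ℝ} (hc : 0 ≤ c) (h : τ → ℝ) : S (fun t => c * h t) ≤ c * S h :=
  S_le fun t => mul_le_mul_of_nonneg_left (le_S h t) hc

end

theorem sg_not (b : Bool) : sg (!b) = -sg b := by
  cases b <;> simp [sg]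

/-- swap the two colourings where the sign is negative -/
def sw {n K : ℕ} (s : Fin n → Bool) (p : (Fin n → Fin K) × (Fin n → Fin K)) :
    (Fin n → Fin K) × (Fin n → Fin K) :=
  (fun i => if s i then p.1 i else p.2 i, fun i => if s i then p.2 i else p.1 i)

theorem sw_inv {n K : ℕ} (s : Fin n → Bool) : Function.Involutive (sw (n := n) (K := K) s) := by
  intro p
  obtain ⟨c, d⟩ := p
  unfold sw
  refine Prod.ext (funext fun i => ?_) (funext fun i => ?_) <;>
    cases h : s i <;> simp [h]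

theorem sum_swap {n K : ℕ} {τ : Type} [Fintype τ] [Nonempty τ] (g : Fin n → Fin K → τ → ℝ)
    (s : Fin n → Bool) :
    ∑ p : (Fin n → Fin K) × (Fin n → Fin K), S (fun t => ∑ i, (g i (p.1 i) t - g i (p.2 i) t)) =
    ∑ p : (Fin n → Fin K) × (Fin n → Fin K),
      S (fun t => ∑ i, sg (s i) * (g i (p.1 i) t - g i (p.2 i) t)) := by
  rw [← Equiv.sum_comp (sw_inv s).toPerm]
  refine Finset.sum_congr rfl fun p _ => ?_
  congr 1
  funext t
  refine Finset.sum_congr rfl fun i _ => ?_
  show g i ((sw s p).1 i) t - g i ((sw s p).2 i) t = _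
  unfold sw sg
  cases h : s i <;> simp [h]

theorem sum_not {n : ℕ} (F : (Fin n → Bool) → ℝ) :
    ∑ s : Fin n → Bool, F (fun i => !s i) = ∑ s, F s := by
  have hinv : Function.Involutive (fun (s : Fin n → Bool) => fun i => !s i) := by
    intro s
    funext i
    simp
  exact Equiv.sum_comp hinv.toPerm F

theorem D_bound {n K : ℕ} {τ : Type} [Fintype τ] [Nonempty τ] (g : Fin n → Fin K → τ → ℝ) :
    2 ^ n * ∑ p : (Fin n → Fin K) × (Fin n → Fin K),
      S (fun t => ∑ i, (g i (p.1 i) t - g i (p.2 i) t)) ≤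
    2 * (K : ℝ) ^ n * ∑ c : Fin n → Fin K, ∑ s : Fin n → Bool,
      S (fun t => ∑ i, sg (s i) * g i (c i) t) := by
  have h1 : (2 : ℝ) ^ n * ∑ p : (Fin n → Fin K) × (Fin n → Fin K),
      S (fun t => ∑ i, (g i (p.1 i) t - g i (p.2 i) t)) =
      ∑ s : Fin n → Bool, ∑ p : (Fin n → Fin K) × (Fin n → Fin K),
        S (fun t => ∑ i, sg (s i) * (g i (p.1 i) t - g i (p.2 i) t)) := by
    rw [← Finset.sum_congr rfl fun s _ => sum_swap g s, Finset.sum_const, Finset.card_univ]
    simp
  rw [h1]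
  have h2 : ∀ (s : Fin n → Bool) (p : (Fin n → Fin K) × (Fin n → Fin K)),
      S (fun t => ∑ i, sg (s i) * (g i (p.1 i) t - g i (p.2 i) t)) ≤
      S (fun t => ∑ i, sg (s i) * g i (p.1 i) t) +
      S (fun t => ∑ i, sg (!s i) * g i (p.2 i) t) := by
    intro s p
    refine le_trans (le_of_eq ?_) (S_add _ _)
    congr 1
    funext t
    rw [← Finset.sum_add_distrib]
    refine Finset.sum_congr rfl fun i _ => ?_
    rw [sg_not]
    ring
  refine le_trans (Finset.sum_le_sum fun s _ => Finset.sum_le_sum fun p _ => h2 s p) ?_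
  have h3 : ∀ s : Fin n → Bool, ∑ p : (Fin n → Fin K) × (Fin n → Fin K),
      (S (fun t => ∑ i, sg (s i) * g i (p.1 i) t) +
      S (fun t => ∑ i, sg (!s i) * g i (p.2 i) t)) =
      (K : ℝ) ^ n * ∑ c : Fin n → Fin K, S (fun t => ∑ i, sg (s i) * g i (c i) t) +
      (K : ℝ) ^ n * ∑ c : Fin n → Fin K, S (fun t => ∑ i, sg (!s i) * g i (c i) t) := by
    intro s
    rw [Finset.sum_add_distrib, Fintype.sum_prod_type, Fintype.sum_prod_type]
    congr 1
    · rw [Finset.mul_sum]
      refine Finset.sum_congr rfl fun c _ => ?_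
      simp
    · simp
  simp_rw [h3]
  rw [Finset.sum_add_distrib, ← Finset.mul_sum, ← Finset.mul_sum]
  have h4 : ∑ s : Fin n → Bool, ∑ c : Fin n → Fin K, S (fun t => ∑ i, sg (!s i) * g i (c i) t) =
      ∑ s : Fin n → Bool, ∑ c : Fin n → Fin K, S (fun t => ∑ i, sg (s i) * g i (c i) t) :=
    sum_not (fun s => ∑ c : Fin n → Fin K, S (fun t => ∑ i, sg (s i) * g i (c i) t))
  rw [h4, Finset.sum_comm]
  apply le_of_eq
  ring

theorem avg {n K : ℕ} (hK : 1 ≤ K) (a : Fin n → Fin K → ℝ) :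
    ∑ c : Fin n → Fin K, ∑ i, a i (c i) = (K : ℝ) ^ n * ∑ i, (1 / (K : ℝ)) * ∑ l, a i l := by
  have hK0 : (K : ℝ) ≠ 0 := by
    have : (0 : ℝ) < K := by exact_mod_cast hK
    exact this.ne'
  rw [Finset.sum_comm, Finset.mul_sum]
  refine Finset.sum_congr rfl fun i _ => ?_
  have h1 : ∑ c : Fin n → Fin K, a i (c i) = ∑ l : Fin K, ∑ c : Fin n → Fin K,
      if c i = l then a i l else 0 := by
    rw [Finset.sum_comm]
    refine Finset.sum_congr rfl fun c _ => ?_
    rw [Finset.sum_ite_eq Finset.univ (c i) (fun l => a i l)]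
    simp
  have h2 : ∀ l : Fin K, (∑ c : Fin n → Fin K, if c i = l then a i l else (0:ℝ)) =
      (K : ℝ) ^ n / K * a i l := by
    intro l
    rw [← Finset.sum_filter, Finset.sum_const, nsmul_eq_mul]
    congr 1
    have h3 : (Finset.univ.filter fun c : Fin n → Fin K => c i = l) =
        Fintype.piFinset (fun j => if j = i then {l} else Finset.univ) := by
      ext c
      simp only [mem_filter, mem_univ, true_and, Fintype.mem_piFinset]
      constructor
      · intro h j
        by_cases hj : j = i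
        · subst hj
          simp [h]
        · simp [hj]
      · intro h
        have := h i
        simpa using this
    rw [h3, Fintype.card_piFinset]
    have h4 : ∏ j : Fin n, (if j = i then ({l} : Finset (Fin K)) else Finset.univ).card =
        K ^ (n - 1) := by
      have h5 : ∀ j : Fin n, (if j = i then ({l} : Finset (Fin K)) else Finset.univ).card =
          if j = i then 1 else K := by
        intro j
        split_ifs <;> simp
      rw [Finset.prod_congr rfl fun j _ => h5 j, Finset.prod_ite]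
      simp [Finset.filter_ne']
    rw [h4]
    have hn : n ≠ 0 := by
      have := i.isLt
      omega
    push_cast
    rw [eq_div_iff hK0, ← pow_succ]
    congr 1
    omega
  rw [h1, Finset.sum_congr rfl fun l _ => h2 l, ← Finset.mul_sum]
  field_simp

theorem t : Pool.Agent.H681R3.DS.TaskSym := by
  intro n K τ _ _ g hK
  have hK0 : (0 : ℝ) < K := by exact_mod_cast hK
  have hKn : (0 : ℝ) < (K : ℝ) ^ n := by positivity
  show ∑ c : Fin n → Fin K, S (fun t => ∑ i, g i (c i) t) ≤
    (K : ℝ) ^ n / K * S (fun t => ∑ i, ∑ l, g i l t) +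
    2 / 2 ^ n * ∑ c : Fin n → Fin K, ∑ s : Fin n → Bool,
      S (fun t => ∑ i, sg (s i) * g i (c i) t)
  -- the mean
  have hmean : ∀ t, ∑ i, (1 / (K : ℝ)) * ∑ l, g i l t =
      ((K : ℝ) ^ n)⁻¹ * ∑ c : Fin n → Fin K, ∑ i, g i (c i) t := by
    intro t
    rw [avg hK (fun i l => g i l t), ← mul_assoc, inv_mul_cancel₀ hKn.ne', one_mul]
  have h1 : ∀ c : Fin n → Fin K, S (fun t => ∑ i, g i (c i) t) ≤
      (1 / (K : ℝ)) * S (fun t => ∑ i, ∑ l, g i l t) +
      ((K : ℝ) ^ n)⁻¹ * ∑ d : Fin n → Fin K, S (fun t => ∑ i, (g i (c i) t - g i (d i) t)) := by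
    intro c
    have e1 : (fun t => ∑ i, g i (c i) t) = fun t =>
        (1 / (K : ℝ)) * (∑ i, ∑ l, g i l t) +
        ((K : ℝ) ^ n)⁻¹ * ∑ d : Fin n → Fin K, ∑ i, (g i (c i) t - g i (d i) t) := by
      funext t
      have e2 : ∑ d : Fin n → Fin K, ∑ i, (g i (c i) t - g i (d i) t) =
          (K : ℝ) ^ n * ∑ i, g i (c i) t - ∑ d : Fin n → Fin K, ∑ i, g i (d i) t := by
        simp_rw [Finset.sum_sub_distrib]
        simp
      rw [e2, mul_sub, ← mul_assoc, inv_mul_cancel₀ hKn.ne', one_mul, ← hmean t,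
        ← Finset.mul_sum]
      ring
    rw [e1]
    refine (S_add _ _).trans (add_le_add (S_mul (by positivity) _) ?_)
    refine (S_mul (by positivity) _).trans ?_
    exact mul_le_mul_of_nonneg_left (S_sum _ _) (by positivity)
  refine (Finset.sum_le_sum fun c _ => h1 c).trans ?_
  rw [Finset.sum_add_distrib]
  have hD := D_bound g
  rw [Fintype.sum_prod_type] at hD
  have h2 : ∑ _c : Fin n → Fin K, (1 / (K : ℝ)) * S (fun t => ∑ i, ∑ l, g i l t) =
      (K : ℝ) ^ n / K * S (fun t => ∑ i, ∑ l, g i l t) := by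
    rw [Finset.sum_const, Finset.card_univ]
    simp
    ring
  rw [h2, ← Finset.mul_sum]
  refine add_le_add le_rfl ?_
  have h2n : (0 : ℝ) < 2 ^ n := by positivity
  rw [div_mul_eq_mul_div, le_div_iff₀ h2n, mul_comm, ← mul_assoc, mul_comm _ ((K:ℝ)^n)⁻¹, mul_assoc]
  rw [inv_mul_le_iff₀ hKn]
  refine hD.trans (le_of_eq ?_)
  ring

end Pool.Agent.H681R3.DS.TSym
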