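import Pool.Agent.H681R3.DS.Stmts

set_option autoImplicit false

namespace Pool.Agent.H681R3.DS.TU
open Finset
open Pool.Agent.H681R3.DS

/-- conjugate phase -/
noncomputable def ph (x : ℂ) : ℂ := if x = 0 then 0 else (starRingEnd ℂ) x / ‖x‖

lemma ph_norm (x : ℂ) : ‖ph x‖ ≤ 1 := by
  unfold ph
  split_ifs with h
  · simp
  · rw [norm_div, RCLike.norm_conj, Complex.norm_real, norm_norm, div_self (norm_ne_zero_iff.2 h)]

lemma mul_ph (x : ℂ) : x * ph x = ((‖x‖ : ℝ) : ℂ) := by
  unfold ph
  split_ifs with h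
  · simp [h]
  · have h1 : ((‖x‖ : ℝ) : ℂ) ≠ 0 := by simpa using h
    rw [← mul_div_assoc, Complex.mul_conj, Complex.normSq_eq_norm_sq]
    push_cast
    field_simp

/-- row bound -/
lemma row (b : ℕ → ℕ → ℂ) (D : ℝ) (h : Bdd b D) (p n : ℕ) (S : ℕ → Prop) [DecidablePred S]
    (hp : p < n) : ∑ j ∈ range n, (if S j then ‖b p j‖ else 0) ≤ D := by
  have h1 := h n (fun i => if i = p then 1 else 0) (fun j => if S j then ph (b p j) else 0)
    (fun i => by split_ifs <;> simp) (fun j => by split_ifs <;> simp [ph_norm])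
  have h2 : (∑ i ∈ range n, ∑ j ∈ range n, b i j * (if i = p then (1 : ℂ) else 0) *
      (if S j then ph (b p j) else 0)) = ((∑ j ∈ range n, (if S j then ‖b p j‖ else 0) : ℝ) : ℂ) := by
    rw [Finset.sum_eq_single p]
    · push_cast
      refine Finset.sum_congr rfl fun j _ => ?_
      by_cases hj : S j
      · simp [hj, mul_ph]
      · simp [hj]
    · intro i _ hi
      simp [hi]
    · intro hh
      exact absurd (mem_range.2 hp) hh
  rw [h2, Complex.norm_real, Real.norm_eq_abs] at h1
  exact (le_abs_self _).trans h1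

/-- column bound -/
lemma col (b : ℕ → ℕ → ℂ) (D : ℝ) (h : Bdd b D) (p n : ℕ) (S : ℕ → Prop) [DecidablePred S]
    (hp : p < n) : ∑ i ∈ range n, (if S i then ‖b i p‖ else 0) ≤ D := by
  have h' : Bdd (fun i j => b j i) D := by
    intro n z w hz hw
    have h1 := h n w z hw hz
    rw [Finset.sum_comm] at h1
    refine le_trans (le_of_eq ?_) h1
    congr 1
    refine Finset.sum_congr rfl fun i _ => Finset.sum_congr rfl fun j _ => ?_
    ring
  exact row (fun i j => b j i) D h' p n S hp

theorem t : Pool.Agent.H681R3.DS.TaskU := by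
  intro K a C c H
  have hC : 0 ≤ C := by
    have := H 0 0 (fun _ => 0) (fun _ => 0) (by simp) (by simp)
    simpa using this
  set F : ℕ → ℕ → ℝ := fun i j => if ∀ q ≤ min i j, c q i = c q j then ‖a i j‖ else 0 with hF
  have hF0 : ∀ i j, 0 ≤ F i j := fun i j => by
    simp only [hF]; split_ifs <;> simp
  have hrow : ∀ p n, p < n → ∑ j ∈ range n, (if p ≤ j then F p j else 0) ≤ (1 / 80) ^ p * C := by
    intro p n hp
    classical
    refine le_trans (le_of_eq ?_) (row _ _ (H p) p n (fun j => p ≤ j ∧ ∀ q ≤ p, c q p = c q j) hp)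
    refine Finset.sum_congr rfl fun j _ => ?_
    by_cases hj : p ≤ j
    · by_cases hc : ∀ q ≤ p, c q p = c q j
      · have h1 : ∀ q < p, c q p = c q j := fun q hq => hc q hq.le
        have e1 : F p j = ‖a p j‖ := by simp only [hF, min_eq_left hj]; exact if_pos hc
        have e2 : (if p ≤ p ∧ p ≤ j ∧ ∀ q < p, c q p = c q j then a p j else 0) = a p j :=
          if_pos ⟨le_rfl, hj, h1⟩
        rw [if_pos hj, e1, if_pos ⟨hj, hc⟩, e2]
      · simp only [hF, hj, true_and, if_true, min_eq_left hj, if_neg hc]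
    · simp [hj]
  have hcol : ∀ p n, p < n → ∑ i ∈ range n, (if p ≤ i then F i p else 0) ≤ (1 / 80) ^ p * C := by
    intro p n hp
    classical
    refine le_trans (le_of_eq ?_) (col _ _ (H p) p n (fun i => p ≤ i ∧ ∀ q ≤ p, c q i = c q p) hp)
    refine Finset.sum_congr rfl fun j _ => ?_
    by_cases hj : p ≤ j
    · by_cases hc : ∀ q ≤ p, c q j = c q p
      · have h1 : ∀ q < p, c q j = c q p := fun q hq => hc q hq.le
        have e1 : F j p = ‖a j p‖ := by simp only [hF, min_eq_right hj]; exact if_pos hc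
        have e2 : (if p ≤ j ∧ p ≤ p ∧ ∀ q < p, c q j = c q p then a j p else 0) = a j p :=
          if_pos ⟨hj, le_rfl, h1⟩
        rw [if_pos hj, e1, if_pos ⟨hj, hc⟩, e2]
      · simp only [hF, hj, true_and, if_true, min_eq_right hj, if_neg hc]
    · simp [hj]
  have hgeo : ∀ n : ℕ, ∑ p ∈ range n, (1 / 80 : ℝ) ^ p ≤ 2 := by
    intro n
    have h1 : Summable (fun p : ℕ => (1 / 80 : ℝ) ^ p) :=
      summable_geometric_of_lt_one (by norm_num) (by norm_num)
    have h2 := h1.sum_le_tsum (range n) (fun _ _ => by positivity)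
    rw [tsum_geometric_of_lt_one (by norm_num) (by norm_num)] at h2
    refine h2.trans (by norm_num)
  have hsq : ∀ n : ℕ, ∑ i ∈ range n, ∑ j ∈ range n, F i j ≤ 4 * C := by
    intro n
    have h1 : ∑ i ∈ range n, ∑ j ∈ range n, F i j ≤
        ∑ i ∈ range n, ∑ j ∈ range n, (if i ≤ j then F i j else 0) +
        ∑ i ∈ range n, ∑ j ∈ range n, (if j ≤ i then F i j else 0) := by
      rw [← Finset.sum_add_distrib]
      refine Finset.sum_le_sum fun i _ => ?_
      rw [← Finset.sum_add_distrib]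
      refine Finset.sum_le_sum fun j _ => ?_
      rcases le_total i j with h | h
      · rw [if_pos h]
        have : 0 ≤ (if j ≤ i then F i j else 0) := by split_ifs; exacts [hF0 _ _, le_rfl]
        linarith
      · rw [if_pos h]
        have : 0 ≤ (if i ≤ j then F i j else 0) := by split_ifs; exacts [hF0 _ _, le_rfl]
        linarith
    have h2 : ∑ i ∈ range n, ∑ j ∈ range n, (if i ≤ j then F i j else 0) ≤ 2 * C := by
      refine (Finset.sum_le_sum fun i hi => hrow i n (mem_range.1 hi)).trans ?_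
      rw [← Finset.sum_mul]
      exact mul_le_mul_of_nonneg_right (hgeo n) hC
    have h3 : ∑ i ∈ range n, ∑ j ∈ range n, (if j ≤ i then F i j else 0) ≤ 2 * C := by
      rw [Finset.sum_comm]
      refine (Finset.sum_le_sum fun i hi => hcol i n (mem_range.1 hi)).trans ?_
      rw [← Finset.sum_mul]
      exact mul_le_mul_of_nonneg_right (hgeo n) hC
    linarith
  refine summable_of_sum_le (c := 4 * C) (fun P => hF0 P.1 P.2) fun u => ?_
  obtain ⟨n, hn⟩ : ∃ n : ℕ, u ⊆ range n ×ˢ range n := by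
    refine ⟨u.sup (fun P => max P.1 P.2) + 1, fun P hP => ?_⟩
    have h1 : max P.1 P.2 ≤ u.sup (fun P => max P.1 P.2) :=
      Finset.le_sup (f := fun P : ℕ × ℕ => max P.1 P.2) hP
    simp only [mem_product, mem_range]
    constructor
    · exact Nat.lt_succ_of_le ((le_max_left _ _).trans h1)
    · exact Nat.lt_succ_of_le ((le_max_right _ _).trans h1)
  calc ∑ P ∈ u, F P.1 P.2 ≤ ∑ P ∈ range n ×ˢ range n, F P.1 P.2 :=
        Finset.sum_le_sum_of_subset_of_nonneg hn (fun P _ _ => hF0 P.1 P.2)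
    _ = ∑ i ∈ range n, ∑ j ∈ range n, F i j := by rw [Finset.sum_product]
    _ ≤ 4 * C := hsq n

end Pool.Agent.H681R3.DS.TU

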